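import Pool.Agent.V1172.GP.Par

set_option autoImplicit false

/-! Densities of bounded cyclic variation. -/

namespace Pool.Agent.V1172.GP

open MeasureTheory Set Metric Complex
open scoped ENNReal NNReal

/-- the data of one summand -/
structure Atm (B : ℝ) (φ : ℝ × ℝ → ℝ≥0) (m : ℝ × ℝ → ℂ) : Prop where
  pos : 0 < B
  mf : Measurable φ
  mm : Measurable m
  m1 : ∀ x, ‖m x‖ ≤ 1
  cy : ∀ s : ℝ≥0, 0 < s → ∀ x, cyc ({y | s < φ y}.indicator m) x ≤ ENNReal.ofReal B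

/-- the operator -/
noncomputable abbrev TT (g : ℝ × ℝ → ℂ) (z : ℝ × ℝ × ℝ) : ℂ := Top volume ker g z

lemma slice_int {φ : ℝ × ℝ → ℝ≥0} (hφ : Measurable φ) {m : ℝ × ℝ → ℂ} (hm : Measurable m)
    (hm1 : ∀ x, ‖m x‖ ≤ 1) (hfin : ∫⁻ x, φ x ≠ ∞) {s : ℝ≥0} (hs : 0 < s) :
    Integrable ({y | s < φ y}.indicator m) := by
  have hS : MeasurableSet {y | s < φ y} := measurableSet_lt measurable_const hφ
  refine ⟨(hm.indicator hS).aestronglyMeasurable, ?_⟩
  rw [HasFiniteIntegral]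
  have hs0 : (s : ℝ≥0∞) ≠ 0 := by exact_mod_cast hs.ne'
  calc ∫⁻ y, ‖({y | s < φ y}.indicator m) y‖ₑ ≤ ∫⁻ y, (s : ℝ≥0∞)⁻¹ * φ y := by
        refine lintegral_mono fun y => ?_
        by_cases h : s < φ y
        · rw [indicator_of_mem (show y ∈ {y | s < φ y} from h)]
          calc ‖m y‖ₑ ≤ 1 := by
                rw [← ofReal_norm, ← ENNReal.ofReal_one]
                exact ENNReal.ofReal_le_ofReal (hm1 y)
            _ = (s : ℝ≥0∞)⁻¹ * s := (ENNReal.inv_mul_cancel hs0 ENNReal.coe_ne_top).symm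
            _ ≤ (s : ℝ≥0∞)⁻¹ * φ y := by
                gcongr
        · rw [indicator_of_notMem (show y ∉ {y | s < φ y} from h)]
          simp
    _ < ∞ := by
        rw [lintegral_const_mul _ hφ.coe_nnreal_ennreal]
        exact ENNReal.mul_lt_top (ENNReal.inv_lt_top.2 (pos_iff_ne_zero.2 hs0)) (lt_top_iff_ne_top.2 hfin)

/-- the layer cake formula for the truncations -/
lemma layer {s a : ℝ≥0} (c : ℂ) :
    ∫ t in Ioc (0 : ℝ) s, (if t < a then c else 0) = ((min a s : ℝ≥0) : ℂ) * c := by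
  have h1 : (fun t : ℝ => if t < a then c else 0) = (Iio (a : ℝ)).indicator fun _ => c := by
    ext t
    simp only [indicator, mem_Iio]
  rw [h1, setIntegral_indicator measurableSet_Iio, setIntegral_const]
  have h2 : (volume : Measure ℝ).real (Ioc (0 : ℝ) s ∩ Iio (a : ℝ)) = ((min a s : ℝ≥0) : ℝ) := by
    rcases lt_or_ge (s : ℝ) a with h | h
    · have e : Ioc (0 : ℝ) s ∩ Iio (a : ℝ) = Ioc 0 (s : ℝ) := by
        ext t
        simp only [mem_inter_iff, mem_Ioc, mem_Iio]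
        constructor
        · exact fun h => h.1
        · exact fun h' => ⟨h', h'.2.trans_lt h⟩
      rw [e, Real.volume_real_Ioc_of_le (NNReal.coe_nonneg s), min_eq_right (by exact_mod_cast h.le)]
      simp
    · have e : Ioc (0 : ℝ) s ∩ Iio (a : ℝ) = Ioo 0 (a : ℝ) := by
        ext t
        simp only [mem_inter_iff, mem_Ioc, mem_Iio, mem_Ioo]
        constructor
        · exact fun h' => ⟨h'.1.1, h'.2⟩
        · exact fun h' => ⟨⟨h'.1, h'.2.le.trans h⟩, h'.2⟩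
      rw [e, Real.volume_real_Ioo_of_le (NNReal.coe_nonneg a), min_eq_left (by exact_mod_cast h)]
      simp
  rw [h2, Complex.real_smul]

/-- decay of the truncations -/
lemma Atm.dec {B : ℝ} {φ : ℝ × ℝ → ℝ≥0} {m : ℝ × ℝ → ℂ} (hA : Atm B φ m) (hfin : ∫⁻ x, φ x ≠ ∞) :
    Dec (volume : Measure (ℝ × ℝ)) ker (fun z => |z.2.2|) (Real.pi / 2 * B) φ m := by
  intro s z hz
  have hz' : z.2.2 ≠ 0 := abs_pos.1 hz
  have hB := hA.pos
  set H : (ℝ × ℝ) → ℝ → ℂ := fun x t => if t < φ x then ker z x * m x else 0 with hH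
  have hkm : Measurable (ker z) := (ker_cont.comp (continuous_const.prodMk continuous_id)).measurable
  have hHm : Measurable (Function.uncurry H) := by
    refine Measurable.ite ?_ ((hkm.comp measurable_fst).mul (hA.mm.comp measurable_fst)) measurable_const
    exact measurableSet_lt measurable_snd
      (measurable_coe_nnreal_real.comp (hA.mf.comp measurable_fst))
  have hHn : ∀ x t, ‖H x t‖ₑ ≤ (Iio ((φ x : ℝ≥0) : ℝ)).indicator 1 t := by
    intro x t
    simp only [hH]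
    by_cases h : t < φ x
    · rw [if_pos h, indicator_of_mem (show t ∈ Iio ((φ x : ℝ≥0) : ℝ) from h), enorm_mul, ← ofReal_norm,
        ker_norm, ENNReal.ofReal_one, one_mul, ← ofReal_norm, Pi.one_apply, ← ENNReal.ofReal_one]
      exact ENNReal.ofReal_le_ofReal (hA.m1 x)
    · rw [if_neg h]
      simp
  have hHi : Integrable (Function.uncurry H)
      ((volume : Measure (ℝ × ℝ)).prod (volume.restrict (Ioc (0 : ℝ) s))) := by
    refine ⟨hHm.aestronglyMeasurable, ?_⟩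
    rw [HasFiniteIntegral, lintegral_prod _ hHm.enorm.aemeasurable]
    refine lt_of_le_of_lt ?_ (lt_top_iff_ne_top.2 hfin)
    refine lintegral_mono fun x => ?_
    calc ∫⁻ t in Ioc (0 : ℝ) s, ‖Function.uncurry H (x, t)‖ₑ
        ≤ ∫⁻ t in Ioc (0 : ℝ) s, (Iio ((φ x : ℝ≥0) : ℝ)).indicator 1 t := lintegral_mono fun t => hHn x t
      _ = volume (Ioc (0 : ℝ) s ∩ Iio ((φ x : ℝ≥0) : ℝ)) := by
          rw [lintegral_indicator_one measurableSet_Iio, Measure.restrict_apply measurableSet_Iio, inter_comm]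
      _ ≤ volume (Ioo (0 : ℝ) (φ x)) := measure_mono fun t ht => ⟨ht.1.1, ht.2⟩
      _ = φ x := by rw [Real.volume_Ioo, sub_zero, ENNReal.ofReal_coe_nnreal]
  have h1 : TT (cm (fun x => min (φ x) s) m) z = ∫ t in Ioc (0 : ℝ) s, ∫ x, H x t := by
    rw [← integral_integral_swap hHi]
    unfold TT Top
    congr 1
    ext x
    simp only [hH, cm]
    rw [layer]
    ring
  have h2 : ∀ t ∈ Ioc (0 : ℝ) s, ‖∫ x, H x t‖ₑ ≤ ENNReal.ofReal (Real.pi / 2 * B / |z.2.2|) := by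
    intro t ht
    have ht0 : 0 < t.toNNReal := Real.toNNReal_pos.2 ht.1
    have e1 : (fun x => H x t) = fun x => ker z x * ({y | t.toNNReal < φ y}.indicator m) x := by
      ext x
      simp only [hH, indicator, mem_ofPred_eq, mul_ite, mul_zero]
      congr 1
      rw [← NNReal.coe_lt_coe, Real.coe_toNNReal _ ht.1.le]
    rw [e1]
    have h3 := Pool.Agent.V1172.GP.dec (z := z) (hA.mm.indicator (measurableSet_lt measurable_const hA.mf))
      (slice_int hA.mf hA.mm hA.m1 hfin ht0) hz'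
    refine h3.trans ?_
    refine (mul_le_mul' le_rfl (hA.cy _ ht0 _)).trans ?_
    rw [← ENNReal.ofReal_mul (by positivity)]
    apply ENNReal.ofReal_le_ofReal
    apply le_of_eq
    field_simp
  have h4 : ‖TT (cm (fun x => min (φ x) s) m) z‖ₑ ≤ ENNReal.ofReal (Real.pi / 2 * B * s / |z.2.2|) := by
    rw [h1]
    refine (enorm_integral_le_lintegral_enorm _).trans ((setLIntegral_mono' measurableSet_Ioc h2).trans ?_)
    rw [setLIntegral_const, Real.volume_Ioc, sub_zero, ← ENNReal.ofReal_mul (by positivity)]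
    apply ENNReal.ofReal_le_ofReal
    apply le_of_eq
    ring
  rw [← ofReal_norm] at h4
  exact (ENNReal.ofReal_le_ofReal_iff (by positivity)).1 h4

/-- the absolute constant -/
noncomputable def cA : ℝ := 2 * (2 * Real.pi) ^ 2

/-- modulated densities -/
noncomputable def mdl (η : ℝ × ℝ × ℝ) (φ : ℝ × ℝ → ℝ≥0) (m : ℝ × ℝ → ℂ) (x : ℝ × ℝ) : ℂ :=
  cexp (I * ((x.1 * η.1 + x.2 * η.2.1 + (x.1 ^ 2 + x.2 ^ 2) * η.2.2 : ℝ) : ℂ)) * cm φ m x

lemma mdl_meas (η : ℝ × ℝ × ℝ) {φ : ℝ × ℝ → ℝ≥0} (hf : Measurable φ) {m : ℝ × ℝ → ℂ} (hm : Measurable m) :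
    Measurable (mdl η φ m) := by
  have h1 : Continuous fun x : ℝ × ℝ =>
    cexp (I * ((x.1 * η.1 + x.2 * η.2.1 + (x.1 ^ 2 + x.2 ^ 2) * η.2.2 : ℝ) : ℂ)) := by fun_prop
  exact h1.measurable.mul (cm_meas hf hm)

lemma mdl_enorm (η : ℝ × ℝ × ℝ) (φ : ℝ × ℝ → ℝ≥0) {m : ℝ × ℝ → ℂ} (hm1 : ∀ x, ‖m x‖ ≤ 1) (x : ℝ × ℝ) :
    ‖mdl η φ m x‖ₑ ≤ φ x := by
  rw [mdl, enorm_mul, ← ofReal_norm, mul_comm I, Complex.norm_exp_ofReal_mul_I, ENNReal.ofReal_one, one_mul]
  exact cm_enorm φ hm1 x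

lemma TT_mdl (η : ℝ × ℝ × ℝ) (φ : ℝ × ℝ → ℝ≥0) (m : ℝ × ℝ → ℂ) (z : ℝ × ℝ × ℝ) :
    TT (mdl η φ m) z = TT (cm φ m) (z - η) := by
  unfold TT Top
  congr 1
  ext x
  simp only [mdl, ker]
  rw [← mul_assoc, ← Complex.exp_add]
  congr 2
  simp only [Prod.fst_sub, Prod.snd_sub]
  push_cast
  ring

lemma shift_mp (η : ℝ × ℝ × ℝ) : MeasurePreserving (fun z : ℝ × ℝ × ℝ => z - η) volume volume :=
  (measurePreserving_sub_right (volume : Measure ℝ) η.1).prod
    (measurePreserving_sub_right (volume : Measure (ℝ × ℝ)) η.2)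

/-- one modulated term, the endpoint -/
lemma atm_weak {B : ℝ} {φ : ℝ × ℝ → ℝ≥0} {m : ℝ × ℝ → ℂ} (hA : Atm B φ m) (hfin : ∫⁻ x, φ x ≠ ∞)
    (η : ℝ × ℝ × ℝ) {lam : ℝ} (hlam : 0 < lam) :
    volume {z | lam < ‖TT (mdl η φ m) z‖} ≤ ENNReal.ofReal (32 * Real.pi * cA * B / lam ^ 3) *
      ∫⁻ x, (φ x : ℝ≥0∞) ^ 3 := by
  have hB := hA.pos
  obtain ⟨s, -, h1⟩ := weak ker_ker (B := Real.pi / 2 * B) (by positivity) hA.mf hA.mm hA.m1 hfin
    (hA.dec hfin) hlam
  have e1 : {z | lam < ‖TT (mdl η φ m) z‖} = (fun z => z - η) ⁻¹' {z | lam < ‖TT (cm φ m) z‖} := by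
    ext z
    simp only [mem_ofPred_eq, mem_preimage, TT_mdl]
  rw [e1, (shift_mp η).measure_preimage]
  · refine h1.trans (mul_le_mul' ?_ (lintegral_mono fun x => ?_))
    · apply ENNReal.ofReal_le_ofReal
      apply le_of_eq
      rw [cA]
      ring
    · gcongr
      exact min_le_left _ _
  · exact (measurableSet_lt measurable_const
      (Top_meas ker_ker (cm_meas hA.mf hA.mm)).norm).nullMeasurableSet

/-- one modulated term, the scaling line -/
lemma atm_strong {B : ℝ} {φ : ℝ × ℝ → ℝ≥0} {m : ℝ × ℝ → ℂ} (hA : Atm B φ m) (hfin : ∫⁻ x, φ x ≠ ∞)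
    (η : ℝ × ℝ × ℝ) {p : ℝ} (hp : 3 < p) :
    eLpNorm (TT (mdl η φ m)) (ENNReal.ofReal p) volume ≤
      ENNReal.ofReal (128 * (64 * cA + 1) * (B / (p - 3)) ^ (1 / p)) *
        (∫⁻ x, (φ x : ℝ≥0∞) ^ (p / (p - 2))) ^ (1 / (p / (p - 2))) := by
  have hB := hA.pos
  have hcA : 0 < cA := by rw [cA]; positivity
  have hp0 : 0 < p := by linarith
  have hp2 : 0 < p - 2 := by linarith
  have hp3 : 0 < p - 3 := by linarith
  have h1 := strong ker_ker (B := Real.pi / 2 * B) (by positivity) hA.mf hA.mm hA.m1 hfin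
    (hA.dec hfin) hp
  rw [eLpNorm_eq_lintegral_rpow_enorm_toReal (by rw [ne_eq, ENNReal.ofReal_eq_zero]; linarith)
    ENNReal.ofReal_ne_top, ENNReal.toReal_ofReal hp0.le]
  have e1 : ∫⁻ z, ‖TT (mdl η φ m) z‖ₑ ^ p = ∫⁻ z, ‖TT (cm φ m) z‖ₑ ^ p := by
    simp only [TT_mdl]
    exact (shift_mp η).lintegral_comp (f := fun z => ‖TT (cm φ m) z‖ₑ ^ p)
      ((Top_meas ker_ker (cm_meas hA.mf hA.mm)).enorm.pow_const p)
  rw [e1]
  calc (∫⁻ z, ‖TT (cm φ m) z‖ₑ ^ p) ^ (1 / p)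
      ≤ (ENNReal.ofReal ((64 * (64 * cA + 1)) ^ p * (Real.pi / 2 * B) / (p - 3)) *
        (∫⁻ x, (φ x : ℝ≥0∞) ^ (p / (p - 2))) ^ (p - 2)) ^ (1 / p) :=
        ENNReal.rpow_le_rpow h1 (by positivity)
    _ ≤ (ENNReal.ofReal ((128 * (64 * cA + 1)) ^ p * (B / (p - 3))) *
        (∫⁻ x, (φ x : ℝ≥0∞) ^ (p / (p - 2))) ^ (p - 2)) ^ (1 / p) := by
        refine ENNReal.rpow_le_rpow (mul_le_mul' (ENNReal.ofReal_le_ofReal ?_) le_rfl) (by positivity)
        have a1 : Real.pi / 2 ≤ (2 : ℝ) ^ p := by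
          calc Real.pi / 2 ≤ (2 : ℝ) ^ (1 : ℝ) := by
                rw [Real.rpow_one]
                linarith [Real.pi_lt_four]
            _ ≤ 2 ^ p := Real.rpow_le_rpow_of_exponent_le (by norm_num) (by linarith)
        calc (64 * (64 * cA + 1)) ^ p * (Real.pi / 2 * B) / (p - 3)
            = (64 * (64 * cA + 1)) ^ p * (Real.pi / 2) * (B / (p - 3)) := by ring
          _ ≤ (64 * (64 * cA + 1)) ^ p * 2 ^ p * (B / (p - 3)) := by gcongr
          _ = _ := by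
              rw [← Real.mul_rpow (by positivity) (by norm_num)]
              congr 2
              ring
    _ = _ := by
        rw [ENNReal.mul_rpow_of_nonneg _ _ (by positivity), ← ENNReal.rpow_mul,
          ENNReal.ofReal_rpow_of_nonneg (by positivity) (by positivity)]
        congr 2
        · rw [Real.mul_rpow (by positivity) (by positivity), ← Real.rpow_mul (by positivity),
            mul_one_div_cancel hp0.ne', Real.rpow_one]
        · field_simp

end Pool.Agent.V1172.GP
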