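import Pool.Agent.V1172.GP.Fin

set_option autoImplicit false

/-! Complex densities and the criterion on half-lines. -/

namespace Pool.Agent.V1172.GP

open MeasureTheory Set Metric Complex
open scoped ENNReal NNReal

/-- the four parts -/
noncomputable def prt (G : ℝ × ℝ → ℂ) (j : Fin 4) (x : ℝ × ℝ) : ℝ≥0 :=
  (![(G x).re, -(G x).re, (G x).im, -(G x).im] j).toNNReal

/-- the four phases -/
noncomputable def phs (j : Fin 4) : ℂ := ![1, -1, I, -I] j

lemma prt_meas {G : ℝ × ℝ → ℂ} (hG : Measurable G) (j : Fin 4) : Measurable (prt G j) := by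
  have h1 : Measurable fun x => (G x).re := Complex.measurable_re.comp hG
  have h2 : Measurable fun x => (G x).im := Complex.measurable_im.comp hG
  fin_cases j
  · exact measurable_real_toNNReal.comp h1
  · exact measurable_real_toNNReal.comp h1.neg
  · exact measurable_real_toNNReal.comp h2
  · exact measurable_real_toNNReal.comp h2.neg

lemma prt_le (G : ℝ × ℝ → ℂ) (j : Fin 4) (x : ℝ × ℝ) : prt G j x ≤ ‖G x‖₊ := by
  have h1 := Complex.abs_re_le_norm (G x)
  have h2 := Complex.abs_im_le_norm (G x)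
  rw [prt, Real.toNNReal_le_iff_le_coe, coe_nnnorm]
  fin_cases j
  · exact (le_abs_self _).trans h1
  · exact (neg_le_abs _).trans h1
  · exact (le_abs_self _).trans h2
  · exact (neg_le_abs _).trans h2

lemma phs_norm (j : Fin 4) : ‖phs j‖ ≤ 1 := by
  fin_cases j <;> simp [phs]

lemma toNN_sub (a : ℝ) : ((a.toNNReal : ℝ≥0) : ℝ) - (((-a).toNNReal : ℝ≥0) : ℝ) = a := by
  rcases le_total 0 a with h | h
  · rw [Real.coe_toNNReal _ h, Real.toNNReal_of_nonpos (by linarith)]; simp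
  · rw [Real.coe_toNNReal _ (by linarith : 0 ≤ -a), Real.toNNReal_of_nonpos h]; simp

lemma prt_sum (G : ℝ × ℝ → ℂ) (x : ℝ × ℝ) : ∑ j, mdl 0 (prt G j) (fun _ => phs j) x = G x := by
  rw [Fin.sum_univ_four]
  simp only [mdl, cm, prt, phs, Matrix.cons_val]
  have h1 := toNN_sub (G x).re
  have h2 := toNN_sub (G x).im
  simp only [Real.coe_toNNReal'] at h1 h2
  apply Complex.ext
  · simp
    linarith
  · simp
    linarith

lemma var_const_mul (c : ℂ) (hc : ‖c‖ ≤ 1) (h : ℝ → ℂ) (s : Set ℝ) :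
    eVariationOn (fun r => c * h r) s ≤ eVariationOn h s := by
  have h1 : LipschitzOnWith 1 (fun w : ℂ => c * w) univ := by
    refine LipschitzOnWith.of_dist_le_mul fun a _ b _ => ?_
    rw [dist_eq_norm, dist_eq_norm, ← mul_sub, norm_mul, NNReal.coe_one]
    gcongr
  have h2 := h1.comp_eVariationOn_le (g := h) (s := s) (fun _ _ => mem_univ _)
  rw [ENNReal.coe_one, one_mul] at h2
  exact h2

lemma cyc_const (A : Set (ℝ × ℝ)) (c : ℂ) (hc : ‖c‖ ≤ 1) (x : ℝ × ℝ) :
    cyc (A.indicator fun _ => c) x ≤ cyc (A.indicator 1) x := by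
  unfold cyc
  refine lintegral_mono fun θ => ?_
  have h1 := var_const_mul c hc (fun r : ℝ => A.indicator (1 : ℝ × ℝ → ℂ)
    (x.1 + r * Real.cos θ, x.2 + r * Real.sin θ)) (Ioi 0)
  refine le_trans (le_of_eq ?_) h1
  congr 1
  ext r
  by_cases h : (x.1 + r * Real.cos θ, x.2 + r * Real.sin θ) ∈ A
  · rw [indicator_of_mem h, indicator_of_mem h]
    simp
  · rw [indicator_of_notMem h, indicator_of_notMem h]
    simp

lemma TT_prt {G : ℝ × ℝ → ℂ} (hG : Measurable G) (hfin : ∫⁻ x, ‖G x‖ₑ ≠ ∞) (z : ℝ × ℝ × ℝ) :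
    TT G z = ∑ j, TT (mdl 0 (prt G j) fun _ => phs j) z := by
  unfold TT Top
  rw [← integral_finsetSum]
  · congr 1
    ext w
    rw [← Finset.mul_sum, prt_sum]
  · intro j _
    refine mul_int ker_ker ⟨(mdl_meas 0 (prt_meas hG j) measurable_const).aestronglyMeasurable, ?_⟩ z
    rw [HasFiniteIntegral]
    refine lt_of_le_of_lt (lintegral_mono fun x => (mdl_enorm 0 _ (fun _ => phs_norm j) x).trans
      (ENNReal.coe_le_coe.2 (prt_le G j x))) (lt_top_iff_ne_top.2 hfin)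

/-- the endpoint for one density -/
theorem one_weak {B : ℝ} {G : ℝ × ℝ → ℂ} (hG : Measurable G)
    (hfin : ∫⁻ x, ‖G x‖ₑ ≠ ∞) (hM : ∀ j, Atm B (prt G j) fun _ => phs j) {lam : ℝ} (hlam : 0 < lam) :
      volume {z | lam < ‖TT G z‖} ≤ ENNReal.ofReal (256 * (32 * Real.pi * cA) * B / lam ^ 3) *
        ∫⁻ x, ‖G x‖ₑ ^ 3 := by
  have hB := (hM 0).pos
  have hcA : 0 < cA := by rw [cA]; positivity
  have hsub : {z | lam < ‖TT G z‖} ⊆
      ⋃ j : Fin 4, {z | lam / 4 < ‖TT (mdl 0 (prt G j) fun _ => phs j) z‖} := by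
    intro z hz
    by_contra hcon
    simp only [mem_iUnion, mem_ofPred_eq, not_exists, not_lt] at hcon
    have h1 : lam < ‖TT G z‖ := hz
    rw [TT_prt hG hfin] at h1
    have h2 := norm_sum_le (Finset.univ : Finset (Fin 4)) fun j => TT (mdl 0 (prt G j) fun _ => phs j) z
    have h3 : ∑ j : Fin 4, ‖TT (mdl 0 (prt G j) fun _ => phs j) z‖ ≤ ∑ _j : Fin 4, lam / 4 :=
      Finset.sum_le_sum fun j _ => hcon j
    rw [Finset.sum_const, Finset.card_univ, Fintype.card_fin, nsmul_eq_mul] at h3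
    push_cast at h3
    linarith
  refine (measure_mono hsub).trans ((measure_iUnion_le _).trans ?_)
  rw [tsum_fintype]
  have h4 : ∀ j : Fin 4, volume {z | lam / 4 < ‖TT (mdl 0 (prt G j) fun _ => phs j) z‖} ≤
      ENNReal.ofReal (64 * (32 * Real.pi * cA) * B / lam ^ 3) * ∫⁻ x, ‖G x‖ₑ ^ 3 := by
    intro j
    have h5 := atm_weak (hM j)
      (ne_top_of_le_ne_top hfin (lintegral_mono fun x => ENNReal.coe_le_coe.2 (prt_le G j x))) 0
      (lam := lam / 4) (by positivity)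
    refine h5.trans ?_
    have e : 32 * Real.pi * cA * B / (lam / 4) ^ 3 = 64 * (32 * Real.pi * cA) * B / lam ^ 3 := by
      field_simp; ring
    rw [e]
    refine mul_le_mul' le_rfl (lintegral_mono fun x => ?_)
    gcongr
    exact ENNReal.coe_le_coe.2 (prt_le G j x)
  refine (Finset.sum_le_sum fun j _ => h4 j).trans (le_of_eq ?_)
  rw [Finset.sum_const, Finset.card_univ, Fintype.card_fin, nsmul_eq_mul, ← mul_assoc]
  congr 1
  rw [← ENNReal.ofReal_natCast, ← ENNReal.ofReal_mul (by positivity)]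
  congr 1
  push_cast
  ring

/-- the scaling line for one density -/
theorem one_strong {B : ℝ} {G : ℝ × ℝ → ℂ} (hG : Measurable G)
    (hfin : ∫⁻ x, ‖G x‖ₑ ≠ ∞) (hM : ∀ j, Atm B (prt G j) fun _ => phs j) {p : ℝ} (hp : 3 < p) :
      eLpNorm (TT G) (ENNReal.ofReal p) volume ≤
        ENNReal.ofReal (4 * (128 * (64 * cA + 1)) * (B / (p - 3)) ^ (1 / p)) *
        (∫⁻ x, ‖G x‖ₑ ^ (p / (p - 2))) ^ (1 / (p / (p - 2))) := by
  have hB := (hM 0).pos
  have hcA : 0 < cA := by rw [cA]; positivity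
  have hp0 : 0 < p := by linarith
  have hp2 : 0 < p - 2 := by linarith
  have hp3 : 0 < p - 3 := by linarith
  have e1 : TT G = ∑ j : Fin 4, TT (mdl 0 (prt G j) fun _ => phs j) := by
    ext z
    rw [TT_prt hG hfin, Finset.sum_apply]
  rw [e1]
  refine (eLpNorm_sum_le (fun j _ => (Top_meas ker_ker
    (mdl_meas 0 (prt_meas hG j) measurable_const)).aestronglyMeasurable)
    (by rw [← ENNReal.ofReal_one]; exact ENNReal.ofReal_le_ofReal (by linarith))).trans ?_
  have h4 : ∀ j : Fin 4, eLpNorm (TT (mdl 0 (prt G j) fun _ => phs j)) (ENNReal.ofReal p) volume ≤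
      ENNReal.ofReal (128 * (64 * cA + 1) * (B / (p - 3)) ^ (1 / p)) *
        (∫⁻ x, ‖G x‖ₑ ^ (p / (p - 2))) ^ (1 / (p / (p - 2))) := by
    intro j
    refine (atm_strong (hM j)
      (ne_top_of_le_ne_top hfin (lintegral_mono fun x => ENNReal.coe_le_coe.2 (prt_le G j x))) 0
      hp).trans (mul_le_mul' le_rfl ?_)
    refine ENNReal.rpow_le_rpow (lintegral_mono fun x => ?_) (by positivity)
    exact ENNReal.rpow_le_rpow (ENNReal.coe_le_coe.2 (prt_le G j x)) (by positivity)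
  refine (Finset.sum_le_sum fun j _ => h4 j).trans (le_of_eq ?_)
  rw [Finset.sum_const, Finset.card_univ, Fintype.card_fin, nsmul_eq_mul, ← mul_assoc]
  congr 1
  rw [← ENNReal.ofReal_natCast, ← ENNReal.ofReal_mul (by positivity)]
  congr 1
  push_cast
  ring

/-! ### half-lines -/

lemma var_le_sum {ι : Type} [Fintype ι] (F : ℝ → ℂ) (G : ι → ℝ → ℂ) (s : Set ℝ)
    (h : ∀ a b, edist (F a) (F b) ≤ ∑ i, edist (G i a) (G i b)) :
    eVariationOn F s ≤ ∑ i, eVariationOn (G i) s := by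
  refine iSup_le fun p => ?_
  obtain ⟨n, u, hu, us⟩ := p
  calc ∑ i ∈ Finset.range n, edist (F (u (i + 1))) (F (u i))
      ≤ ∑ i ∈ Finset.range n, ∑ k, edist (G k (u (i + 1))) (G k (u i)) :=
        Finset.sum_le_sum fun i _ => h _ _
    _ = ∑ k, ∑ i ∈ Finset.range n, edist (G k (u (i + 1))) (G k (u i)) := Finset.sum_comm
    _ ≤ _ := Finset.sum_le_sum fun k _ => eVariationOn.sum_le hu us

lemma var_up (U : Set ℝ) (hU : ∀ a ∈ U, ∀ b, a ≤ b → b ∈ U) (s : Set ℝ) :
    eVariationOn (U.indicator (1 : ℝ → ℂ)) s ≤ 1 := by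
  refine iSup_le fun p => ?_
  obtain ⟨n, u, hu, us⟩ := p
  set f : ℝ → ℝ := U.indicator 1 with hf
  have hfm : Monotone f := by
    intro a b hab
    simp only [hf]
    by_cases h : a ∈ U
    · rw [indicator_of_mem h, indicator_of_mem (hU a h b hab)]
      rfl
    · rw [indicator_of_notMem h]
      exact indicator_nonneg (fun _ _ => zero_le_one) _
  have h1 : ∀ i, edist ((U.indicator (1 : ℝ → ℂ)) (u (i + 1))) ((U.indicator (1 : ℝ → ℂ)) (u i)) =
      ENNReal.ofReal (f (u (i + 1)) - f (u i)) := by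
    intro i
    have h2 : 0 ≤ f (u (i + 1)) - f (u i) := sub_nonneg.2 (hfm (hu (Nat.le_succ i)))
    have h3 : ∀ a, U.indicator (1 : ℝ → ℂ) a = ((f a : ℝ) : ℂ) := by
      intro a
      simp only [hf]
      by_cases h : a ∈ U
      · rw [indicator_of_mem h, indicator_of_mem h]; simp
      · rw [indicator_of_notMem h, indicator_of_notMem h]; simp
    rw [edist_dist, dist_eq_norm, h3, h3, ← Complex.ofReal_sub, Complex.norm_real,
      Real.norm_of_nonneg h2]
  simp only [h1]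
  rw [← ENNReal.ofReal_sum_of_nonneg (fun i _ => sub_nonneg.2 (hfm (hu (Nat.le_succ i)))),
    Finset.sum_range_sub (fun i => f (u i)), ← ENNReal.ofReal_one]
  apply ENNReal.ofReal_le_ofReal
  have h4 : f (u n) ≤ 1 := by
    simp only [hf]
    exact indicator_le' (fun _ _ => le_rfl) (fun _ _ => zero_le_one) _
  have h5 : 0 ≤ f (u 0) := by
    simp only [hf]
    exact indicator_nonneg (fun _ _ => zero_le_one) _
  linarith

lemma ind_edist0 {A : Set ℝ} {a b : ℝ} (h : a ∈ A ↔ b ∈ A) :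
    edist (A.indicator (1 : ℝ → ℂ) a) (A.indicator (1 : ℝ → ℂ) b) = 0 := by
  by_cases ha : a ∈ A
  · have hb := h.1 ha
    simp [ha, hb]
  · have hb : b ∉ A := fun hb => ha (h.2 hb)
    simp [ha, hb]

lemma ind_edist1 {A : Set ℝ} {a b : ℝ} (h : ¬ (a ∈ A ↔ b ∈ A)) :
    edist (A.indicator (1 : ℝ → ℂ) a) (A.indicator (1 : ℝ → ℂ) b) = 1 := by
  by_cases ha : a ∈ A <;> by_cases hb : b ∈ A
  · exact absurd (iff_of_true ha hb) h
  · simp [ha, hb, edist_dist]
  · simp [ha, hb, edist_dist]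
  · exact absurd (iff_of_false ha hb) h

lemma ind_edist_le (A : Set ℝ) (a b : ℝ) :
    edist (A.indicator (1 : ℝ → ℂ) a) (A.indicator (1 : ℝ → ℂ) b) ≤ 1 := by
  by_cases h : a ∈ A ↔ b ∈ A
  · rw [ind_edist0 h]
    exact zero_le
  · rw [ind_edist1 h]

lemma var_interval (A : Set ℝ) (hA : A.OrdConnected) (s : Set ℝ) :
    eVariationOn (A.indicator (1 : ℝ → ℂ)) s ≤ 2 := by
  set U : Set ℝ := {x | ∃ y ∈ A, y ≤ x} with hU
  set V : Set ℝ := {x | x ∉ A ∧ ∃ y ∈ A, y ≤ x} with hV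
  have hUu : ∀ a ∈ U, ∀ b, a ≤ b → b ∈ U := by
    rintro a ⟨y, hy, hya⟩ b hab
    exact ⟨y, hy, hya.trans hab⟩
  have hVu : ∀ a ∈ V, ∀ b, a ≤ b → b ∈ V := by
    rintro a ⟨ha, y, hy, hya⟩ b hab
    exact ⟨fun hb => ha (hA.out hy hb ⟨hya, hab⟩), y, hy, hya.trans hab⟩
  have h1 := var_le_sum (A.indicator (1 : ℝ → ℂ)) ![U.indicator 1, V.indicator 1] s (by
    intro a b
    rw [Fin.sum_univ_two]
    simp only [Matrix.cons_val]
    have hAU : ∀ x, x ∈ A ↔ (x ∈ U ∧ x ∉ V) := by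
      intro x
      constructor
      · intro hx
        exact ⟨⟨x, hx, le_rfl⟩, fun h => h.1 hx⟩
      · rintro ⟨⟨y, hy, hyx⟩, h2⟩
        by_contra hx
        exact h2 ⟨hx, y, hy, hyx⟩
    by_cases h2 : a ∈ U ↔ b ∈ U
    · by_cases h3 : a ∈ V ↔ b ∈ V
      · have h4 : a ∈ A ↔ b ∈ A := by rw [hAU, hAU, h2, h3]
        rw [ind_edist0 h4]
        exact zero_le
      · rw [ind_edist1 h3]
        exact (ind_edist_le A a b).trans le_add_self
    · rw [ind_edist1 h2]
      exact (ind_edist_le A a b).trans le_self_add)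
  refine h1.trans ?_
  rw [Fin.sum_univ_two]
  simp only [Matrix.cons_val]
  calc _ ≤ (1 : ℝ≥0∞) + 1 := add_le_add (var_up U hUu s) (var_up V hVu s)
    _ = 2 := one_add_one_eq_two

lemma var_union {N : ℕ} (J : Fin N → Set ℝ) (hJ : ∀ i, (J i).OrdConnected) (s : Set ℝ) :
    eVariationOn ((⋃ i, J i).indicator (1 : ℝ → ℂ)) s ≤ 2 * N := by
  have h1 := var_le_sum ((⋃ i, J i).indicator (1 : ℝ → ℂ)) (fun i => (J i).indicator 1) s (by
    intro a b
    by_cases h : (a ∈ ⋃ i, J i) ↔ (b ∈ ⋃ i, J i)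
    · rw [ind_edist0 h]
      exact zero_le
    · rw [ind_edist1 h]
      obtain ⟨i, hi⟩ : ∃ i, ¬ (a ∈ J i ↔ b ∈ J i) := by
        by_contra hcon
        push Not at hcon
        apply h
        simp only [mem_iUnion]
        exact exists_congr fun i => hcon i
      rw [← ind_edist1 hi]
      exact Finset.single_le_sum (f := fun i => edist ((J i).indicator (1 : ℝ → ℂ) a)
        ((J i).indicator (1 : ℝ → ℂ) b)) (fun _ _ => zero_le) (Finset.mem_univ i))
  refine h1.trans ((Finset.sum_le_sum fun i _ => var_interval (J i) (hJ i) s).trans ?_)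
  rw [Finset.sum_const, Finset.card_univ, Fintype.card_fin, nsmul_eq_mul, mul_comm]

lemma cyc_rays {N : ℕ} {A : Set (ℝ × ℝ)} {x : ℝ × ℝ}
    (h : ∀ θ : ℝ, ∃ J : Fin N → Set ℝ, (∀ i, (J i).OrdConnected) ∧
      {r | 0 < r ∧ (x.1 + r * Real.cos θ, x.2 + r * Real.sin θ) ∈ A} = ⋃ i, J i) :
    cyc (A.indicator 1) x ≤ ENNReal.ofReal (4 * Real.pi * N) := by
  unfold cyc
  calc ∫⁻ θ in Ioo (-Real.pi) Real.pi, eVariationOn (fun r : ℝ => A.indicator (1 : ℝ × ℝ → ℂ)
        (x.1 + r * Real.cos θ, x.2 + r * Real.sin θ)) (Ioi 0)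
      ≤ ∫⁻ _θ in Ioo (-Real.pi) Real.pi, ((2 : ℝ≥0∞) * N) := by
        refine lintegral_mono fun θ => ?_
        obtain ⟨J, hJ, e⟩ := h θ
        have h1 := var_union J hJ (Ioi 0)
        rw [← e] at h1
        refine le_trans (le_of_eq ?_) h1
        refine eVariationOn.congr fun r hr => ?_
        have hr0 : (0 : ℝ) < r := hr
        by_cases h2 : (x.1 + r * Real.cos θ, x.2 + r * Real.sin θ) ∈ A
        · rw [indicator_of_mem h2, indicator_of_mem]
          · rfl
          · exact ⟨hr0, h2⟩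
        · rw [indicator_of_notMem h2, indicator_of_notMem]
          exact fun h3 => h2 h3.2
    _ = ENNReal.ofReal (4 * Real.pi * N) := by
        rw [setLIntegral_const, Real.volume_Ioo, show (2 : ℝ≥0∞) * N = ENNReal.ofReal (2 * N) by
          rw [ENNReal.ofReal_mul (by norm_num), ENNReal.ofReal_natCast]; simp,
          ← ENNReal.ofReal_mul (by positivity)]
        congr 1
        ring

end Pool.Agent.V1172.GP
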