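import Pool.Agent.V1172.GP.Osc
import Pool.Agent.V1172.GP.Sup

set_option autoImplicit false

/-! Decay of the extension of functions of bounded cyclic variation. -/

namespace Pool.Agent.V1172.GP

open MeasureTheory Set Metric Complex
open scoped ENNReal NNReal

/-- the kernel -/
noncomputable def ker (z : ℝ × ℝ × ℝ) (x : ℝ × ℝ) : ℂ :=
  cexp (-(I * ((x.1 * z.1 + x.2 * z.2.1 + (x.1 ^ 2 + x.2 ^ 2) * z.2.2 : ℝ) : ℂ)))

/-- the cyclic variation of `g` at the point `x` -/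
noncomputable def cyc (g : ℝ × ℝ → ℂ) (x : ℝ × ℝ) : ℝ≥0∞ :=
  ∫⁻ θ in Ioo (-Real.pi) Real.pi,
    eVariationOn (fun r : ℝ => g (x.1 + r * Real.cos θ, x.2 + r * Real.sin θ)) (Ioi 0)

lemma ker_norm (z : ℝ × ℝ × ℝ) (x : ℝ × ℝ) : ‖ker z x‖ = 1 := by
  rw [ker, show -(I * ((x.1 * z.1 + x.2 * z.2.1 + (x.1 ^ 2 + x.2 ^ 2) * z.2.2 : ℝ) : ℂ)) =
    ((-(x.1 * z.1 + x.2 * z.2.1 + (x.1 ^ 2 + x.2 ^ 2) * z.2.2) : ℝ) : ℂ) * I by push_cast; ring,
    Complex.norm_exp_ofReal_mul_I]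

lemma ker_cont : Continuous fun p : (ℝ × ℝ × ℝ) × (ℝ × ℝ) => ker p.1 p.2 := by
  unfold ker
  fun_prop

/-- the inner integral -/
lemma inner {g : ℝ × ℝ → ℂ} (hg : Measurable g) {t : ℝ} (ht : t ≠ 0) (θ : ℝ) :
    ‖∫ r in Ioi (0 : ℝ), r • (cexp (-(I * ((t * ((r * Real.cos θ) ^ 2 + (r * Real.sin θ) ^ 2) : ℝ) : ℂ))) *
      g (r * Real.cos θ, r * Real.sin θ))‖ₑ ≤ ENNReal.ofReal (Real.pi / (2 * |t|)) *
      eVariationOn (fun r : ℝ => g (r * Real.cos θ, r * Real.sin θ)) (Ioi 0) := by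
  set w : ℝ → ℂ := fun u => g (√u * Real.cos θ, √u * Real.sin θ) with hw
  have hwm : Measurable w := by
    refine hg.comp (Measurable.prodMk ?_ ?_)
    · exact (Real.continuous_sqrt.mul continuous_const).measurable
    · exact (Real.continuous_sqrt.mul continuous_const).measurable
  have h1 := integral_comp_rpow_Ioi_of_pos (g := fun u : ℝ => cexp (-(I * ((t * u : ℝ) : ℂ))) * w u)
    (p := 2) (by norm_num)
  have h2 : ∫ x in Ioi (0 : ℝ), ((2 : ℝ) * x ^ ((2 : ℝ) - 1)) •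
      (cexp (-(I * ((t * x ^ (2 : ℝ) : ℝ) : ℂ))) * w (x ^ (2 : ℝ))) = (2 : ℝ) •
      ∫ r in Ioi (0 : ℝ), r • (cexp (-(I * ((t * ((r * Real.cos θ) ^ 2 + (r * Real.sin θ) ^ 2) : ℝ) : ℂ))) *
      g (r * Real.cos θ, r * Real.sin θ)) := by
    rw [← integral_smul]
    refine setIntegral_congr_fun measurableSet_Ioi fun r hr => ?_
    have hr0 : (0 : ℝ) < r := hr
    have e1 : r ^ (2 : ℝ) = r ^ 2 := by
      rw [show (2 : ℝ) = ((2 : ℕ) : ℝ) by norm_num, Real.rpow_natCast]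
    have e2 : r ^ ((2 : ℝ) - 1) = r := by norm_num
    have e3 : (r * Real.cos θ) ^ 2 + (r * Real.sin θ) ^ 2 = r ^ 2 := by
      rw [mul_pow, mul_pow, ← mul_add, Real.cos_sq_add_sin_sq, mul_one]
    simp only [e2, e3, hw, e1]
    rw [Real.sqrt_sq hr0.le, smul_smul]
  rw [h2] at h1
  have h3 := osc hwm ht
  rw [← h1, enorm_smul] at h3
  have h4 : eVariationOn w (Ioi 0) ≤
      eVariationOn (fun r : ℝ => g (r * Real.cos θ, r * Real.sin θ)) (Ioi 0) :=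
    eVariationOn.comp_le_of_monotoneOn (fun r : ℝ => g (r * Real.cos θ, r * Real.sin θ)) Real.sqrt
      (fun a _ b _ hab => Real.sqrt_le_sqrt hab) (fun u hu => Real.sqrt_pos.2 hu)
  have h5 : ‖(2 : ℝ)‖ₑ = 2 := by
    rw [← ofReal_norm]
    norm_num
  rw [h5] at h3
  have h6 : ENNReal.ofReal (Real.pi / |t|) = 2 * ENNReal.ofReal (Real.pi / (2 * |t|)) := by
    rw [show (2 : ℝ≥0∞) = ENNReal.ofReal 2 by simp, ← ENNReal.ofReal_mul (by norm_num)]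
    congr 1
    have := abs_pos.2 ht
    field_simp
  rw [h6, mul_assoc] at h3
  refine ((ENNReal.mul_le_mul_iff_right (by norm_num) (by norm_num)).1 h3).trans ?_
  gcongr

/-- polar coordinates -/
lemma pol {g : ℝ × ℝ → ℂ} (hg : Measurable g) (hi : Integrable g) {t : ℝ} (ht : t ≠ 0) :
    ‖∫ y : ℝ × ℝ, cexp (-(I * ((t * (y.1 ^ 2 + y.2 ^ 2) : ℝ) : ℂ))) * g y‖ₑ ≤
      ENNReal.ofReal (Real.pi / (2 * |t|)) * ∫⁻ θ in Ioo (-Real.pi) Real.pi,
        eVariationOn (fun r : ℝ => g (r * Real.cos θ, r * Real.sin θ)) (Ioi 0) := by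
  set G : ℝ × ℝ → ℂ := fun y => cexp (-(I * ((t * (y.1 ^ 2 + y.2 ^ 2) : ℝ) : ℂ))) * g y with hG
  have hec : Continuous fun y : ℝ × ℝ => cexp (-(I * ((t * (y.1 ^ 2 + y.2 ^ 2) : ℝ) : ℂ))) := by
    fun_prop
  have hen : ∀ y : ℝ × ℝ, ‖cexp (-(I * ((t * (y.1 ^ 2 + y.2 ^ 2) : ℝ) : ℂ)))‖ = 1 := fun y => by
    rw [show -(I * ((t * (y.1 ^ 2 + y.2 ^ 2) : ℝ) : ℂ)) = ((-(t * (y.1 ^ 2 + y.2 ^ 2)) : ℝ) : ℂ) * I by
      push_cast; ring, Complex.norm_exp_ofReal_mul_I]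
  have hGi : Integrable G := hi.bdd_mul hec.measurable.aestronglyMeasurable (c := 1)
    (Filter.Eventually.of_forall fun u => (hen u).le)
  have hGm : Measurable G := hec.measurable.mul hg
  have h1 := integral_comp_polarCoord_symm G
  have hsm : ∀ p : ℝ × ℝ, polarCoord.symm p = (p.1 * Real.cos p.2, p.1 * Real.sin p.2) := fun p => by
    simp [polarCoord]
  have hsc : Measurable fun p : ℝ × ℝ => polarCoord.symm p := by
    have : Continuous fun p : ℝ × ℝ => (p.1 * Real.cos p.2, p.1 * Real.sin p.2) := by fun_prop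
    simp only [hsm]
    exact this.measurable
  have ht0 : polarCoord.target = Ioi (0 : ℝ) ×ˢ Ioo (-Real.pi) Real.pi := rfl
  have hint : IntegrableOn (fun p : ℝ × ℝ => p.1 • G (polarCoord.symm p))
      (Ioi (0 : ℝ) ×ˢ Ioo (-Real.pi) Real.pi) := by
    refine ⟨(measurable_fst.smul (hGm.comp hsc)).aestronglyMeasurable, ?_⟩
    have h2 := lintegral_comp_polarCoord_symm (fun y => ‖G y‖ₑ)
    have h3 : ∫⁻ y, ‖G y‖ₑ < ∞ := hGi.2
    rw [← h2] at h3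
    rw [HasFiniteIntegral, ← ht0]
    refine lt_of_le_of_lt (le_of_eq ?_) h3
    refine setLIntegral_congr_fun polarCoord.open_target.measurableSet fun p hp => ?_
    have hp0 : (0 : ℝ) < p.1 := hp.1
    rw [enorm_smul, smul_eq_mul, ← ofReal_norm p.1, Real.norm_of_nonneg hp0.le]
  rw [← h1, ht0, Measure.volume_eq_prod, ← Measure.prod_restrict]
  rw [IntegrableOn, Measure.volume_eq_prod, ← Measure.prod_restrict] at hint
  rw [integral_prod_symm _ hint]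
  refine (enorm_integral_le_lintegral_enorm _).trans ?_
  rw [← lintegral_const_mul' _ _ ENNReal.ofReal_ne_top]
  refine lintegral_mono fun θ => ?_
  have := inner hg ht θ
  simp only [hsm, hG]
  exact this

/-- **Decay.** -/
lemma dec {g : ℝ × ℝ → ℂ} (hg : Measurable g) (hi : Integrable g) {z : ℝ × ℝ × ℝ} (hz : z.2.2 ≠ 0) :
    ‖∫ x, ker z x * g x‖ₑ ≤ ENNReal.ofReal (Real.pi / (2 * |z.2.2|)) *
      cyc g (-(z.1 / (2 * z.2.2)), -(z.2.1 / (2 * z.2.2))) := by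
  set x₀ : ℝ × ℝ := (-(z.1 / (2 * z.2.2)), -(z.2.1 / (2 * z.2.2))) with hx
  have h1 := pol (g := fun y => g (x₀ + y)) (hg.comp (measurable_const.add measurable_id))
    (hi.comp_add_left x₀) hz
  have h2 : ∫ x, ker z x * g x = cexp (-(I * ((x₀.1 * z.1 + x₀.2 * z.2.1 +
      (x₀.1 ^ 2 + x₀.2 ^ 2) * z.2.2 : ℝ) : ℂ))) *
      ∫ y : ℝ × ℝ, cexp (-(I * ((z.2.2 * (y.1 ^ 2 + y.2 ^ 2) : ℝ) : ℂ))) * g (x₀ + y) := by
    rw [← integral_add_left_eq_self (fun x => ker z x * g x) x₀, ← integral_const_mul]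
    congr 1
    ext y
    rw [← mul_assoc, ← Complex.exp_add, ker]
    congr 2
    have h3 : ((x₀ + y).1 * z.1 + (x₀ + y).2 * z.2.1 + ((x₀ + y).1 ^ 2 + (x₀ + y).2 ^ 2) * z.2.2 : ℝ) =
        (x₀.1 * z.1 + x₀.2 * z.2.1 + (x₀.1 ^ 2 + x₀.2 ^ 2) * z.2.2) +
          z.2.2 * (y.1 ^ 2 + y.2 ^ 2) := by
      simp only [hx, Prod.fst_add, Prod.snd_add]
      field_simp
      ring
    rw [h3]
    push_cast
    ring
  have h4 : ‖cexp (-(I * ((x₀.1 * z.1 + x₀.2 * z.2.1 + (x₀.1 ^ 2 + x₀.2 ^ 2) * z.2.2 : ℝ) : ℂ)))‖ₑ = 1 := by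
    have := ker_norm z x₀
    rw [ker] at this
    rw [← ofReal_norm, this, ENNReal.ofReal_one]
  rw [h2, enorm_mul, h4, one_mul]
  exact h1

end Pool.Agent.V1172.GP
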