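import Mathlib

set_option autoImplicit false

/-! Oscillatory integrals of functions of bounded variation on the half line, and of functions of
bounded cyclic variation in the plane. -/

namespace Pool.Agent.V1172.GP

open MeasureTheory Set Metric Complex
open scoped ENNReal NNReal

/-- translations of functions of bounded variation -/
lemma bv_shift {g : ℝ → ℂ} (hg : Measurable g) {h : ℝ} (hh : 0 < h) :
    ∫⁻ u in Ioi (0 : ℝ), ‖g (u + h) - g u‖ₑ ≤ ENNReal.ofReal h * eVariationOn g (Ioi 0) := by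
  have hm : Measurable fun u => ‖g (u + h) - g u‖ₑ :=
    ((hg.comp (measurable_id.add_const h)).sub hg).enorm
  have hun : Ioi (0 : ℝ) = ⋃ k : ℕ, Ioc ((k : ℝ) * h) ((k : ℝ) * h + h) := by
    ext u
    simp only [mem_Ioi, mem_iUnion, mem_Ioc]
    constructor
    · intro hu
      obtain ⟨k, hk, -⟩ := existsUnique_add_zsmul_mem_Ioc hh u 0
      have hk' : 0 < u + k • h ∧ u + k • h ≤ 0 + h := hk
      rw [zsmul_eq_mul] at hk'
      have hk0 : k ≤ 0 := by
        by_contra hcon
        have h1 : (1 : ℝ) ≤ k := by exact_mod_cast (not_le.1 hcon)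
        nlinarith
      refine ⟨(-k).toNat, ?_⟩
      have h2 : (((-k).toNat : ℕ) : ℝ) = -(k : ℝ) := by
        have : (((-k).toNat : ℕ) : ℤ) = -k := Int.toNat_of_nonneg (by omega)
        exact_mod_cast this
      rw [h2]
      constructor <;> nlinarith [hk'.1, hk'.2]
    · rintro ⟨k, hk, -⟩
      have : 0 ≤ (k : ℝ) * h := by positivity
      linarith
  have hdis : Pairwise (Function.onFun Disjoint fun k : ℕ => Ioc ((k : ℝ) * h) ((k : ℝ) * h + h)) := by
    intro i j hij
    rw [Function.onFun, Set.disjoint_left]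
    rintro u ⟨h1, h2⟩ ⟨h3, h4⟩
    have h5 : (i : ℝ) < j + 1 := by
      have : (i : ℝ) * h < (j + 1) * h := by linarith
      exact lt_of_mul_lt_mul_right this hh.le
    have h6 : (j : ℝ) < i + 1 := by
      have : (j : ℝ) * h < (i + 1) * h := by linarith
      exact lt_of_mul_lt_mul_right this hh.le
    have h7 : i < j + 1 := by exact_mod_cast h5
    have h8 : j < i + 1 := by exact_mod_cast h6
    omega
  have hshift : ∀ k : ℕ, ∫⁻ u in Ioc ((k : ℝ) * h) ((k : ℝ) * h + h), ‖g (u + h) - g u‖ₑ =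
      ∫⁻ u in Ioc (0 : ℝ) h, ‖g (u + ((k + 1 : ℕ) : ℝ) * h) - g (u + (k : ℝ) * h)‖ₑ := by
    intro k
    have h1 := (measurePreserving_add_right (volume : Measure ℝ) ((k : ℝ) * h)).setLIntegral_comp_preimage
      (s := Ioc ((k : ℝ) * h) ((k : ℝ) * h + h)) measurableSet_Ioc hm
    rw [← h1]
    have e1 : (fun u : ℝ => u + (k : ℝ) * h) ⁻¹' Ioc ((k : ℝ) * h) ((k : ℝ) * h + h) = Ioc 0 h := by
      ext u
      simp only [mem_preimage, mem_Ioc]
      constructor <;> rintro ⟨a, b⟩ <;> constructor <;> linarith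
    rw [e1]
    refine lintegral_congr fun u => ?_
    congr 3
    push_cast
    ring
  calc ∫⁻ u in Ioi (0 : ℝ), ‖g (u + h) - g u‖ₑ
      = ∑' k : ℕ, ∫⁻ u in Ioc ((k : ℝ) * h) ((k : ℝ) * h + h), ‖g (u + h) - g u‖ₑ := by
        rw [hun, lintegral_iUnion (fun k => measurableSet_Ioc) hdis]
    _ = ∑' k : ℕ, ∫⁻ u in Ioc (0 : ℝ) h, ‖g (u + ((k + 1 : ℕ) : ℝ) * h) - g (u + (k : ℝ) * h)‖ₑ := by
        simp only [hshift]
    _ = ∫⁻ u in Ioc (0 : ℝ) h, ∑' k : ℕ, ‖g (u + ((k + 1 : ℕ) : ℝ) * h) - g (u + (k : ℝ) * h)‖ₑ := by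
        rw [lintegral_tsum]
        intro k
        exact (((hg.comp (measurable_id.add_const _)).sub
          (hg.comp (measurable_id.add_const _))).enorm).aemeasurable
    _ ≤ ∫⁻ _u in Ioc (0 : ℝ) h, eVariationOn g (Ioi 0) := by
        refine setLIntegral_mono' measurableSet_Ioc fun u hu => ?_
        refine ENNReal.tsum_le_of_sum_range_le fun n => ?_
        have hmono : Monotone fun k : ℕ => u + (k : ℝ) * h := fun a b hab => by
          have : (a : ℝ) ≤ b := by exact_mod_cast hab
          simp only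
          gcongr
        have h2 := eVariationOn.sum_le (f := g) (s := Ioi 0) (n := n) (u := fun k : ℕ => u + (k : ℝ) * h)
          hmono (fun i => by
            have : 0 ≤ (i : ℝ) * h := by positivity
            simp only [mem_Ioi]
            linarith [hu.1])
        refine le_trans (le_of_eq ?_) h2
        refine Finset.sum_congr rfl fun i _ => ?_
        rw [edist_dist, dist_eq_norm, ofReal_norm]
    _ = ENNReal.ofReal h * eVariationOn g (Ioi 0) := by
        rw [setLIntegral_const, Real.volume_Ioc, sub_zero, mul_comm]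

/-- an integrable function on the half line is bounded by its variation -/
lemma sup_le_var {g : ℝ → ℂ} (hi : IntegrableOn g (Ioi 0)) {u : ℝ} (hu : 0 < u) :
    ‖g u‖ₑ ≤ eVariationOn g (Ioi 0) := by
  by_contra hcon
  push Not at hcon
  have h1 : ∀ v ∈ Ioi (0 : ℝ), ‖g u‖ₑ - eVariationOn g (Ioi 0) ≤ ‖g v‖ₑ := by
    intro v hv
    rw [tsub_le_iff_right]
    have h2 := eVariationOn.edist_le g (s := Ioi 0) (x := u) (y := v) hu hv
    calc ‖g u‖ₑ = ‖g v + (g u - g v)‖ₑ := by congr 1; ring
      _ ≤ ‖g v‖ₑ + ‖g u - g v‖ₑ := enorm_add_le _ _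
      _ ≤ ‖g v‖ₑ + eVariationOn g (Ioi 0) := by
          gcongr
          rwa [edist_dist, dist_eq_norm, ofReal_norm] at h2
  have h3 : ∫⁻ _v in Ioi (0 : ℝ), (‖g u‖ₑ - eVariationOn g (Ioi 0)) ≤ ∫⁻ v in Ioi (0 : ℝ), ‖g v‖ₑ :=
    setLIntegral_mono' measurableSet_Ioi h1
  rw [setLIntegral_const, Real.volume_Ioi, ENNReal.mul_top (tsub_pos_of_lt hcon).ne'] at h3
  exact absurd hi.2 (by rw [HasFiniteIntegral]; exact not_lt.2 h3)

/-- **One variable.** -/
lemma osc {g : ℝ → ℂ} (hg : Measurable g) {r : ℝ} (hr : r ≠ 0) :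
    ‖∫ u in Ioi (0 : ℝ), cexp (-(I * ((r * u : ℝ) : ℂ))) * g u‖ₑ ≤
      ENNReal.ofReal (Real.pi / |r|) * eVariationOn g (Ioi 0) := by
  set h : ℝ := Real.pi / |r| with hh
  have hr0 : 0 < |r| := abs_pos.2 hr
  have hh0 : 0 < h := by positivity
  set e : ℝ → ℂ := fun u => cexp (-(I * ((r * u : ℝ) : ℂ))) with he
  have hen : ∀ u, ‖e u‖ = 1 := fun u => by
    simp only [he]
    rw [show -(I * ((r * u : ℝ) : ℂ)) = ((-(r * u) : ℝ) : ℂ) * I by push_cast; ring,
      Complex.norm_exp_ofReal_mul_I]
  have hec : Continuous e := by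
    simp only [he]
    fun_prop
  by_cases hi : IntegrableOn g (Ioi 0)
  swap
  · have h1 : ¬ Integrable (fun u => e u * g u) (volume.restrict (Ioi 0)) := by
      intro hc
      apply hi
      have h2 : Integrable (fun u => (starRingEnd ℂ) (e u) * (e u * g u)) (volume.restrict (Ioi 0)) := by
        refine hc.bdd_mul (c := 1) ?_ (Filter.Eventually.of_forall fun u => ?_)
        · exact (Complex.continuous_conj.comp hec).measurable.aestronglyMeasurable
        · rw [RCLike.norm_conj, hen]
      refine h2.congr (Filter.Eventually.of_forall fun u => ?_)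
      simp only
      rw [← mul_assoc, mul_comm ((starRingEnd ℂ) (e u)), Complex.mul_conj, Complex.normSq_eq_norm_sq, hen]
      simp
    rw [integral_undef h1]
    simp
  have hmul : ∀ (G : ℝ → ℂ) (s : Set ℝ), IntegrableOn G s → IntegrableOn (fun u => e u * G u) s :=
    fun G s hG => hG.bdd_mul hec.measurable.aestronglyMeasurable (c := 1)
      (Filter.Eventually.of_forall fun u => (hen u).le)
  have hsh : IntegrableOn (fun u => g (u + h)) (Ioi 0) := by
    have h1 := (measurePreserving_add_right (volume : Measure ℝ) h).integrableOn_comp_preimage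
      (measurableEmbedding_addRight h) (f := g) (s := Ioi h)
    have e1 : (fun u : ℝ => u + h) ⁻¹' Ioi h = Ioi 0 := by
      ext u
      simp
    rw [e1] at h1
    exact h1.2 (hi.mono_set (Ioi_subset_Ioi hh0.le))
  set J : ℂ := ∫ u in Ioi (0 : ℝ), e u * g u with hJ
  have hshift : ∫ u in Ioi h, e u * g u = -∫ u in Ioi (0 : ℝ), e u * g (u + h) := by
    have h1 := (measurePreserving_add_right (volume : Measure ℝ) h).setIntegral_preimage_emb
      (measurableEmbedding_addRight h) (fun u => e u * g u) (Ioi h)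
    have e1 : (fun u : ℝ => u + h) ⁻¹' Ioi h = Ioi 0 := by
      ext u
      simp
    rw [e1] at h1
    rw [← h1, ← integral_neg]
    congr 1
    ext u
    have : e (u + h) = -e u := by
      simp only [he]
      rcases lt_or_gt_of_ne hr with hneg | hpos
      · have h2 : r * (u + h) = r * u - Real.pi := by
          rw [hh, abs_of_neg hneg]
          have : r ≠ 0 := hr
          field_simp
          ring
        rw [h2]
        have h3 : -(I * ((r * u - Real.pi : ℝ) : ℂ)) = -(I * ((r * u : ℝ) : ℂ)) + (Real.pi : ℂ) * I := by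
          push_cast; ring
        rw [h3, Complex.exp_add, Complex.exp_pi_mul_I]
        ring
      · have h2 : r * (u + h) = r * u + Real.pi := by
          rw [hh, abs_of_pos hpos]
          field_simp
        rw [h2]
        have h3 : -(I * ((r * u + Real.pi : ℝ) : ℂ)) = -(I * ((r * u : ℝ) : ℂ)) + -((Real.pi : ℂ) * I) := by
          push_cast; ring
        have h4 : cexp (-((Real.pi : ℂ) * I)) = -1 := by
          rw [Complex.exp_neg, Complex.exp_pi_mul_I]
          norm_num
        rw [h3, Complex.exp_add, h4]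
        ring
    rw [this]
    ring
  have hsplit : J = (∫ u in Ioc 0 h, e u * g u) + ∫ u in Ioi h, e u * g u := by
    rw [hJ, ← setIntegral_union Ioc_disjoint_Ioi_same measurableSet_Ioi
      (hmul _ _ (hi.mono_set Ioc_subset_Ioi_self)) (hmul _ _ (hi.mono_set (Ioi_subset_Ioi hh0.le))),
      Ioc_union_Ioi_eq_Ioi hh0.le]
  have h2J : 2 * J = (∫ u in Ioc 0 h, e u * g u) + ∫ u in Ioi (0 : ℝ), e u * (g u - g (u + h)) := by
    have h3 : ∫ u in Ioi (0 : ℝ), e u * (g u - g (u + h)) =
        J - ∫ u in Ioi (0 : ℝ), e u * g (u + h) := by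
      rw [hJ, ← integral_sub (hmul _ _ hi) (hmul _ _ hsh)]
      congr 1
      ext u
      ring
    have h4 : (∫ u in Ioi (0 : ℝ), e u * g (u + h)) = -∫ u in Ioi h, e u * g u := by rw [hshift]; ring
    rw [h3, h4]
    linear_combination hsplit
  have hb1 : ‖∫ u in Ioc 0 h, e u * g u‖ₑ ≤ ENNReal.ofReal h * eVariationOn g (Ioi 0) := by
    refine (enorm_integral_le_lintegral_enorm _).trans ?_
    calc ∫⁻ u in Ioc 0 h, ‖e u * g u‖ₑ ≤ ∫⁻ _u in Ioc 0 h, eVariationOn g (Ioi 0) := by
          refine setLIntegral_mono' measurableSet_Ioc fun u hu => ?_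
          rw [enorm_mul, ← ofReal_norm, hen, ENNReal.ofReal_one, one_mul]
          exact sup_le_var hi hu.1
      _ = _ := by rw [setLIntegral_const, Real.volume_Ioc, sub_zero, mul_comm]
  have hb2 : ‖∫ u in Ioi (0 : ℝ), e u * (g u - g (u + h))‖ₑ ≤
      ENNReal.ofReal h * eVariationOn g (Ioi 0) := by
    refine (enorm_integral_le_lintegral_enorm _).trans ((lintegral_mono fun u => ?_).trans (bv_shift hg hh0))
    rw [enorm_mul, ← ofReal_norm, hen, ENNReal.ofReal_one, one_mul, ← enorm_neg, neg_sub]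
  have h5 : 2 * ‖J‖ₑ ≤ 2 * (ENNReal.ofReal h * eVariationOn g (Ioi 0)) := by
    calc 2 * ‖J‖ₑ = ‖2 * J‖ₑ := by
          rw [enorm_mul]
          congr 1
          rw [← ofReal_norm]
          simp
      _ ≤ _ := by
          rw [h2J, two_mul]
          exact (enorm_add_le _ _).trans (add_le_add hb1 hb2)
  exact (ENNReal.mul_le_mul_iff_right (by norm_num) (by norm_num)).1 h5

end Pool.Agent.V1172.GP
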