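import Pool.Agent.V1172.GP.Dec
import Pool.Agent.Helper160.MF.JL3mult

set_option autoImplicit false

/-! The `L²` estimate on slabs for the paraboloid. -/

namespace Pool.Agent.V1172.GP

open MeasureTheory Set Metric Complex
open Pool.Agent.Helper160.MF (Eu)
open scoped ENNReal NNReal FourierTransform RealInnerProductSpace

/-- coordinates -/
noncomputable def Psi : Eu 2 ≃ᵐ ℝ × ℝ :=
  (MeasurableEquiv.toLp 2 (Fin 2 → ℝ)).symm.trans MeasurableEquiv.finTwoArrow

lemma Psi_mp : MeasurePreserving Psi :=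
  (volume_preserving_finTwoArrow ℝ).comp
    (EuclideanSpace.volume_preserving_symm_measurableEquiv_toLp (Fin 2))

lemma Psi_app (x : Eu 2) : Psi x = (x 0, x 1) := rfl

/-- the slices -/
lemma slice {g : ℝ × ℝ → ℂ} (hg : Measurable g) {M : ℝ} (hM : ∀ x, ‖g x‖ ≤ M) (hi : Integrable g)
    (t : ℝ) : ∫⁻ ξ : ℝ × ℝ, ‖Top volume ker g (ξ.1, ξ.2, t)‖ₑ ^ 2 =
      ENNReal.ofReal ((2 * Real.pi) ^ 2) * ∫⁻ x, ‖g x‖ₑ ^ 2 := by
  set e : ℝ × ℝ → ℂ := fun x => cexp (-(I * (((x.1 ^ 2 + x.2 ^ 2) * t : ℝ) : ℂ))) with he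
  have hec : Continuous e := by
    simp only [he]
    fun_prop
  have hen : ∀ x, ‖e x‖ = 1 := fun x => by
    simp only [he]
    rw [show -(I * (((x.1 ^ 2 + x.2 ^ 2) * t : ℝ) : ℂ)) = ((-((x.1 ^ 2 + x.2 ^ 2) * t) : ℝ) : ℂ) * I by
      push_cast; ring, Complex.norm_exp_ofReal_mul_I]
  set h : Eu 2 → ℂ := fun v => e (Psi v) * g (Psi v) with hh
  have hGi : Integrable (fun x => e x * g x) := hi.bdd_mul hec.measurable.aestronglyMeasurable (c := 1)
    (Filter.Eventually.of_forall fun u => (hen u).le)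
  have hGm : Measurable fun x => e x * g x := hec.measurable.mul hg
  have hGn : ∀ x, ‖e x * g x‖ = ‖g x‖ := fun x => by rw [norm_mul, hen, one_mul]
  have h1 : Integrable h := (Psi_mp.integrable_comp_emb Psi.measurableEmbedding).2 hGi
  have h2 : MemLp h 2 := by
    rw [memLp_two_iff_integrable_sq_norm h1.aestronglyMeasurable]
    have : Integrable (fun v => ‖h v‖ * ‖h v‖) := by
      refine h1.norm.bdd_mul (c := M) h1.norm.aestronglyMeasurable
        (Filter.Eventually.of_forall fun v => ?_)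
      rw [norm_norm]
      simp only [hh]
      rw [hGn]
      exact hM _
    refine this.congr (Filter.Eventually.of_forall fun v => ?_)
    simp only
    ring
  have hF : ∀ η : Eu 2, 𝓕 h η = Top volume ker g (2 * Real.pi * (Psi η).1, 2 * Real.pi * (Psi η).2, t) := by
    intro η
    rw [Real.fourier_eq', Top, ← Psi_mp.integral_comp Psi.measurableEmbedding]
    congr 1
    ext v
    simp only [hh, he, ker, smul_eq_mul]
    rw [← mul_assoc, ← Complex.exp_add]
    congr 2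
    have h3 : ⟪v, η⟫ = v 0 * η 0 + v 1 * η 1 := by
      rw [PiLp.inner_apply, Fin.sum_univ_two]
      simp only [Real.inner_apply]
    rw [h3]
    simp only [Psi_app]
    push_cast
    ring
  have hpl := Pool.Agent.Helper160.MF.JL3mult.mb_plancherel h h1 h2
  -- the left side
  have h4 : ∫⁻ η : Eu 2, ‖𝓕 h η‖ₑ ^ 2 =
      ∫⁻ ξ : ℝ × ℝ, ‖Top volume ker g (2 * Real.pi * ξ.1, 2 * Real.pi * ξ.2, t)‖ₑ ^ 2 := by
    simp only [hF]
    exact Psi_mp.lintegral_comp_emb Psi.measurableEmbedding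
      (fun ξ : ℝ × ℝ => ‖Top volume ker g (2 * Real.pi * ξ.1, 2 * Real.pi * ξ.2, t)‖ₑ ^ 2)
  have h5 : ∫⁻ v : Eu 2, ‖h v‖ₑ ^ 2 = ∫⁻ x, ‖g x‖ₑ ^ 2 := by
    have h6 := Psi_mp.lintegral_comp_emb Psi.measurableEmbedding (fun x : ℝ × ℝ => ‖g x‖ₑ ^ 2)
    rw [← h6]
    refine lintegral_congr fun v => ?_
    simp only [hh]
    rw [enorm_mul, ← ofReal_norm (e _), hen, ENNReal.ofReal_one, one_mul]
  rw [h4, h5] at hpl
  -- scaling
  have h2pi : (0 : ℝ) < 2 * Real.pi := by positivity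
  have h7 : ∫⁻ ξ : ℝ × ℝ, ‖Top volume ker g (2 * Real.pi * ξ.1, 2 * Real.pi * ξ.2, t)‖ₑ ^ 2 =
      ENNReal.ofReal (1 / (2 * Real.pi) ^ 2) * ∫⁻ ξ : ℝ × ℝ, ‖Top volume ker g (ξ.1, ξ.2, t)‖ₑ ^ 2 := by
    have h8 := Measure.map_addHaar_smul (volume : Measure (ℝ × ℝ)) h2pi.ne'
    have h9 := (Homeomorph.smulOfNeZero (2 * Real.pi) h2pi.ne' (α := ℝ × ℝ)).measurableEmbedding.lintegral_map
      (μ := volume) (fun ξ : ℝ × ℝ => ‖Top volume ker g (ξ.1, ξ.2, t)‖ₑ ^ 2)
    have h10 : (Homeomorph.smulOfNeZero (2 * Real.pi) h2pi.ne' (α := ℝ × ℝ) : ℝ × ℝ → ℝ × ℝ) =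
      fun x => (2 * Real.pi) • x := rfl
    rw [h10, h8, lintegral_smul_measure] at h9
    have h11 : |((2 * Real.pi) ^ (Module.finrank ℝ (ℝ × ℝ)))⁻¹| = 1 / (2 * Real.pi) ^ 2 := by
      rw [abs_of_nonneg (by positivity)]
      simp
    rw [h11, smul_eq_mul] at h9
    rw [h9]
    rfl
  rw [h7] at hpl
  rw [← hpl, ← mul_assoc, ← ENNReal.ofReal_mul (by positivity)]
  have : (2 * Real.pi) ^ 2 * (1 / (2 * Real.pi) ^ 2) = 1 := by field_simp
  rw [this, ENNReal.ofReal_one, one_mul]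

/-- the kernel of the paraboloid -/
lemma ker_ker : Ker (volume : Measure (ℝ × ℝ)) (volume : Measure (ℝ × ℝ × ℝ)) ker
    (fun z => |z.2.2|) (2 * (2 * Real.pi) ^ 2) := by
  have hmeas : Measurable fun p : (ℝ × ℝ × ℝ) × (ℝ × ℝ) => ker p.1 p.2 := ker_cont.measurable
  refine ⟨hmeas, ker_norm, ?_, fun z => abs_nonneg _, ?_, by positivity, ?_⟩
  · exact (measurable_snd.comp measurable_snd).abs
  · have e1 : {z : ℝ × ℝ × ℝ | |z.2.2| = 0} = univ ×ˢ (univ ×ˢ {(0 : ℝ)}) := by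
      ext z
      simp
    rw [e1, Measure.volume_eq_prod, Measure.prod_prod, Measure.volume_eq_prod, Measure.prod_prod]
    simp
  · rintro g hg ⟨M, hM⟩ hi R hR
    have hTm : Measurable (Top volume ker g) := by
      have : StronglyMeasurable fun p : (ℝ × ℝ × ℝ) × (ℝ × ℝ) => ker p.1 p.2 * g p.2 :=
        (hmeas.mul (hg.comp measurable_snd)).stronglyMeasurable
      exact (this.integral_prod_right' (ν := (volume : Measure (ℝ × ℝ)))).measurable
    set F : ℝ × ℝ × ℝ → ℝ≥0∞ := fun z => {z : ℝ × ℝ × ℝ | |z.2.2| < R}.indicator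
      (fun z => ‖Top volume ker g z‖ₑ ^ 2) z with hF
    have hsm : MeasurableSet {z : ℝ × ℝ × ℝ | |z.2.2| < R} :=
      measurableSet_lt (measurable_snd.comp measurable_snd).abs measurable_const
    have hFm : Measurable F := (hTm.enorm.pow_const 2).indicator hsm
    rw [← lintegral_indicator hsm]
    have h1 := (volume_preserving_prodAssoc (α₁ := ℝ) (β₁ := ℝ) (γ₁ := ℝ)).lintegral_comp_emb
      MeasurableEquiv.prodAssoc.measurableEmbedding F
    rw [show (∫⁻ z, {z : ℝ × ℝ × ℝ | |z.2.2| < R}.indicator (fun z => ‖Top volume ker g z‖ₑ ^ 2) z) =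
      ∫⁻ z, F z from rfl, ← h1]
    have h2 : Measurable fun w : (ℝ × ℝ) × ℝ => F (MeasurableEquiv.prodAssoc w) :=
      hFm.comp MeasurableEquiv.prodAssoc.measurable
    rw [Measure.volume_eq_prod, lintegral_prod_symm _ h2.aemeasurable]
    have h3 : ∀ t : ℝ, ∫⁻ ξ : ℝ × ℝ, F (MeasurableEquiv.prodAssoc (ξ, t)) =
        (Ioo (-R) R).indicator (fun _ => ENNReal.ofReal ((2 * Real.pi) ^ 2) * ∫⁻ x, ‖g x‖ₑ ^ 2) t := by
      intro t
      by_cases ht : |t| < R
      · rw [indicator_of_mem (show t ∈ Ioo (-R) R from abs_lt.1 ht), ← slice hg hM hi t]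
        refine lintegral_congr fun ξ => ?_
        simp only [hF]
        rw [indicator_of_mem]
        · rfl
        · exact ht
      · rw [indicator_of_notMem (show t ∉ Ioo (-R) R from fun h => ht (abs_lt.2 h)), ← lintegral_zero (μ := (volume : Measure (ℝ × ℝ)))]
        refine lintegral_congr fun ξ => ?_
        simp only [hF]
        rw [indicator_of_notMem]
        exact ht
    simp only [h3]
    rw [lintegral_indicator measurableSet_Ioo, setLIntegral_const, Real.volume_Ioo, mul_comm, ← mul_assoc,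
      ← ENNReal.ofReal_mul (by linarith)]
    refine mul_le_mul' (ENNReal.ofReal_le_ofReal (le_of_eq ?_)) le_rfl
    ring

end Pool.Agent.V1172.GP
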