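import Mathlib

set_option autoImplicit false

/-! Abstract level set estimates for oscillatory integrals: an `L²` bound on `{ρ < R}` growing like `R`
and the decay `1/ρ` of the truncations give the weak type estimate and the estimates on the scaling
line. -/

namespace Pool.Agent.V1172.GP

open MeasureTheory Set Metric Complex
open scoped ENNReal NNReal

/-- dyadic sum -/
lemma dyadic (a y : ℝ) (ha : 0 < a) (hy : 0 ≤ y) :
    ∑' j : ℤ, (if a * (2 : ℝ) ^ j < y then ENNReal.ofReal ((2 : ℝ) ^ j) else 0) ≤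
      ENNReal.ofReal (2 * y / a) := by
  rcases hy.eq_or_lt with rfl | hy
  · have : ∀ j : ℤ, (if a * (2 : ℝ) ^ j < 0 then ENNReal.ofReal ((2 : ℝ) ^ j) else 0) = 0 := fun j => by
      rw [if_neg (not_lt.2 (by positivity))]
    simp [this]
  obtain ⟨J, hJ1, hJ2⟩ := exists_mem_Ioc_zpow (y := (2 : ℝ)) (x := y / a) (by positivity) (by norm_num)
  -- 2 ^ J < y / a ≤ 2 ^ (J + 1)
  have hinj : Function.Injective fun k : ℕ => J - (k : ℤ) := fun k l h => by
    simp only [sub_right_inj, Nat.cast_inj] at h; exact h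
  have hsupp : Function.support (fun j : ℤ => if a * (2 : ℝ) ^ j < y then
      ENNReal.ofReal ((2 : ℝ) ^ j) else 0) ⊆ range fun k : ℕ => J - (k : ℤ) := by
    intro j hj
    simp only [Function.mem_support, ne_eq, ite_eq_right_iff, not_forall] at hj
    obtain ⟨h1, -⟩ := hj
    have h2 : (2 : ℝ) ^ j < (2 : ℝ) ^ (J + 1) := by
      refine lt_of_lt_of_le ?_ hJ2
      rw [lt_div_iff₀ ha]; linarith
    have h3 : j < J + 1 := (zpow_lt_zpow_iff_right₀ (by norm_num)).1 h2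
    refine ⟨(J - j).toNat, ?_⟩
    simp only
    omega
  rw [← hinj.tsum_eq hsupp]
  calc ∑' k : ℕ, (if a * (2 : ℝ) ^ (J - (k : ℤ)) < y then ENNReal.ofReal ((2 : ℝ) ^ (J - (k : ℤ))) else 0)
      ≤ ∑' k : ℕ, ENNReal.ofReal ((2 : ℝ) ^ J) * (2⁻¹ : ℝ≥0∞) ^ k := by
        refine ENNReal.tsum_le_tsum fun k => ?_
        split_ifs
        · rw [zpow_sub₀ (by norm_num), zpow_natCast, ENNReal.ofReal_div_of_pos (by positivity),
            ENNReal.ofReal_pow (by norm_num), div_eq_mul_inv, ENNReal.inv_pow]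
          simp
        · exact zero_le
    _ = ENNReal.ofReal ((2 : ℝ) ^ J) * 2 := by
        rw [ENNReal.tsum_mul_left, ENNReal.tsum_geometric, ENNReal.one_sub_inv_two, inv_inv]
    _ ≤ ENNReal.ofReal (2 * y / a) := by
        rw [show (2 : ℝ≥0∞) = ENNReal.ofReal 2 by simp, ← ENNReal.ofReal_mul (by positivity)]
        apply ENNReal.ofReal_le_ofReal
        have : 2 * y / a = y / a * 2 := by ring
        rw [this]
        gcongr


section

variable {X Z : Type*} [MeasurableSpace X] [MeasurableSpace Z]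

/-- the operator with kernel `k` -/
noncomputable def Top (μ : Measure X) (k : Z → X → ℂ) (g : X → ℂ) (z : Z) : ℂ :=
  ∫ x, k z x * g x ∂μ

/-- the hypotheses on the kernel -/
structure Ker (μ : Measure X) (ν : Measure Z) (k : Z → X → ℂ) (ρ : Z → ℝ) (A : ℝ) : Prop where
  meas : Measurable fun p : Z × X => k p.1 p.2
  one : ∀ z x, ‖k z x‖ = 1
  rm : Measurable ρ
  r0 : ∀ z, 0 ≤ ρ z
  null : ν {z | ρ z = 0} = 0
  pos : 0 < A
  ah : ∀ g : X → ℂ, Measurable g → (∃ M : ℝ, ∀ x, ‖g x‖ ≤ M) → Integrable g μ → ∀ R : ℝ, 0 < R →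
    ∫⁻ z in {z | ρ z < R}, ‖Top μ k g z‖ₑ ^ 2 ∂ν ≤ ENNReal.ofReal (A * R) * ∫⁻ x, ‖g x‖ₑ ^ 2 ∂μ

/-- the mass above the level `t` -/
noncomputable def Lam (μ : Measure X) (f : X → ℝ≥0) (t : ℝ≥0) : ℝ≥0∞ :=
  ∫⁻ x, ((f x - t : ℝ≥0) : ℝ≥0∞) ∂μ

/-- the density `f m` -/
noncomputable def cm (f : X → ℝ≥0) (m : X → ℂ) (x : X) : ℂ := ((f x : ℝ≥0) : ℂ) * m x

/-- decay of the truncations -/
def Dec (μ : Measure X) (k : Z → X → ℂ) (ρ : Z → ℝ) (B : ℝ) (f : X → ℝ≥0) (m : X → ℂ) : Prop :=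
  ∀ (s : ℝ≥0) (z : Z), 0 < ρ z → ‖Top μ k (cm (fun x => min (f x) s) m) z‖ ≤ B * s / ρ z

variable {μ : Measure X} {ν : Measure Z} {k : Z → X → ℂ} {ρ : Z → ℝ} {A : ℝ}

lemma cm_meas {f : X → ℝ≥0} (hf : Measurable f) {m : X → ℂ} (hm : Measurable m) :
    Measurable (cm f m) :=
  (Complex.measurable_ofReal.comp (measurable_coe_nnreal_real.comp hf)).mul hm

lemma cm_norm (f : X → ℝ≥0) {m : X → ℂ} (hm1 : ∀ x, ‖m x‖ ≤ 1) (x : X) : ‖cm f m x‖ ≤ f x := by
  rw [cm, norm_mul, Complex.norm_real, Real.norm_of_nonneg (NNReal.coe_nonneg _)]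
  exact mul_le_of_le_one_right (NNReal.coe_nonneg _) (hm1 x)

lemma cm_enorm (f : X → ℝ≥0) {m : X → ℂ} (hm1 : ∀ x, ‖m x‖ ≤ 1) (x : X) : ‖cm f m x‖ₑ ≤ f x := by
  rw [← ofReal_norm, ← ENNReal.ofReal_coe_nnreal]
  exact ENNReal.ofReal_le_ofReal (cm_norm f hm1 x)

lemma cm_int0 {f : X → ℝ≥0} (hf : Measurable f) {m : X → ℂ} (hm : Measurable m)
    (hm1 : ∀ x, ‖m x‖ ≤ 1) (hfin : ∫⁻ x, f x ∂μ ≠ ∞) : Integrable (cm f m) μ := by
  refine ⟨(cm_meas hf hm).aestronglyMeasurable, ?_⟩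
  rw [HasFiniteIntegral]
  exact lt_of_le_of_lt (lintegral_mono fun w => cm_enorm f hm1 w) (lt_top_iff_ne_top.2 hfin)

lemma k_meas (hk : Ker μ ν k ρ A) (z : Z) : Measurable (k z) :=
  hk.meas.comp (measurable_const.prodMk measurable_id)

lemma mul_int (hk : Ker μ ν k ρ A) {g : X → ℂ} (hg : Integrable g μ) (z : Z) :
    Integrable (fun x => k z x * g x) μ :=
  hg.bdd_mul (k_meas hk z).aestronglyMeasurable (c := 1) (Filter.Eventually.of_forall fun x =>
    (hk.one z x).le)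

lemma Top_meas [SFinite μ] (hk : Ker μ ν k ρ A) {g : X → ℂ} (hg : Measurable g) :
    Measurable (Top μ k g) := by
  have : StronglyMeasurable fun p : Z × X => k p.1 p.2 * g p.2 :=
    (hk.meas.mul (hg.comp measurable_snd)).stronglyMeasurable
  exact (this.integral_prod_right' (ν := μ)).measurable

lemma T_split (hk : Ker μ ν k ρ A) {f g h : X → ℝ≥0} (hg : Measurable g) (hh : Measurable h)
    {m : X → ℂ} (hm : Measurable m) (hm1 : ∀ x, ‖m x‖ ≤ 1)
    (hgf : ∫⁻ x, g x ∂μ ≠ ∞) (hhf : ∫⁻ x, h x ∂μ ≠ ∞) (e : ∀ x, f x = g x + h x)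
    (z : Z) : Top μ k (cm f m) z = Top μ k (cm g m) z + Top μ k (cm h m) z := by
  unfold Top
  rw [← integral_add (mul_int hk (cm_int0 hg hm hm1 hgf) z) (mul_int hk (cm_int0 hh hm hm1 hhf) z)]
  congr 1
  ext w
  simp only [cm, e]
  push_cast
  ring

lemma T_enorm0 (hk : Ker μ ν k ρ A) (g : X → ℂ) (z : Z) : ‖Top μ k g z‖ₑ ≤ ∫⁻ x, ‖g x‖ₑ ∂μ := by
  unfold Top
  refine (enorm_integral_le_lintegral_enorm _).trans (lintegral_mono fun w => ?_)
  rw [enorm_mul, ← ofReal_norm, hk.one, ENNReal.ofReal_one, one_mul]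

lemma T_enorm (hk : Ker μ ν k ρ A) (f : X → ℝ≥0) {m : X → ℂ} (hm1 : ∀ x, ‖m x‖ ≤ 1) (z : Z) :
    ‖Top μ k (cm f m) z‖ₑ ≤ ∫⁻ x, f x ∂μ :=
  (T_enorm0 hk _ z).trans (lintegral_mono fun x => cm_enorm f hm1 x)

lemma Lam_anti (f : X → ℝ≥0) : Antitone (Lam μ f) := fun s t hst =>
  lintegral_mono fun x => by
    have : f x - t ≤ f x - s := tsub_le_tsub_left hst _
    exact ENNReal.coe_le_coe.2 this

lemma Lam_lim {f : X → ℝ≥0} (hf : Measurable f) (hfin : ∫⁻ x, f x ∂μ ≠ ∞) {t : ℕ → ℝ≥0} {s : ℝ≥0}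
    (ht : Filter.Tendsto t Filter.atTop (nhds s)) :
    Filter.Tendsto (fun n => Lam μ f (t n)) Filter.atTop (nhds (Lam μ f s)) := by
  refine tendsto_lintegral_of_dominated_convergence (fun x => (f x : ℝ≥0∞)) (fun n => ?_)
    (fun n => Filter.Eventually.of_forall fun x => ?_) hfin
    (Filter.Eventually.of_forall fun x => ?_)
  · exact (hf.sub measurable_const).coe_nnreal_ennreal
  · exact ENNReal.coe_le_coe.2 tsub_le_self
  · exact ENNReal.tendsto_coe.2 (tendsto_const_nhds.sub ht)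

lemma exists_level {f : X → ℝ≥0} (hf : Measurable f) (hfin : ∫⁻ x, f x ∂μ ≠ ∞)
    {ε : ℝ≥0∞} (hε : 0 < ε) : ∃ s : ℝ≥0, Lam μ f s ≤ ε ∧ ∀ t < s, ε < Lam μ f t := by
  set S : Set ℝ≥0 := {t | Lam μ f t ≤ ε} with hS
  have hne : S.Nonempty := by
    have h2 : Filter.Tendsto (fun n : ℕ => ∫⁻ x, ((f x - (n : ℝ≥0) : ℝ≥0) : ℝ≥0∞) ∂μ) Filter.atTop
        (nhds (∫⁻ _x, (0 : ℝ≥0∞) ∂μ)) := by
      refine tendsto_lintegral_of_dominated_convergence (fun x => (f x : ℝ≥0∞)) (fun n => ?_)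
        (fun n => Filter.Eventually.of_forall fun x => ?_) hfin
        (Filter.Eventually.of_forall fun x => ?_)
      · exact (hf.sub measurable_const).coe_nnreal_ennreal
      · exact ENNReal.coe_le_coe.2 tsub_le_self
      · refine tendsto_const_nhds.congr' ?_
        obtain ⟨n, hn⟩ := exists_nat_ge (f x)
        filter_upwards [Filter.eventually_ge_atTop n] with j hj
        have : f x ≤ (j : ℝ≥0) := hn.trans (by exact_mod_cast hj)
        rw [tsub_eq_zero_of_le this]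
        rfl
    rw [lintegral_zero] at h2
    obtain ⟨n, hn⟩ := (h2.eventually_lt_const hε).exists
    exact ⟨n, hn.le⟩
  refine ⟨sInf S, ?_, fun t ht => ?_⟩
  · obtain ⟨t, -, ht, htS⟩ := exists_seq_tendsto_sInf hne (OrderBot.bddBelow S)
    exact le_of_tendsto (Lam_lim hf hfin ht) (Filter.Eventually.of_forall fun n => htS n)
  · by_contra hcon
    exact absurd (csInf_le (OrderBot.bddBelow S) (not_lt.1 hcon)) (not_le.2 ht)

/-- **The level set estimate.** -/
theorem weak [SFinite μ] (hk : Ker μ ν k ρ A) {f : X → ℝ≥0} {m : X → ℂ} {B : ℝ} (hB : 0 < B)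
    (hf : Measurable f) (hm : Measurable m) (hm1 : ∀ x, ‖m x‖ ≤ 1) (hfin : ∫⁻ x, f x ∂μ ≠ ∞)
    (hdec : Dec μ k ρ B f m) {lam : ℝ} (hlam : 0 < lam) : ∃ s : ℝ≥0,
      (∀ t < s, ENNReal.ofReal (lam / 4) < Lam μ f t) ∧
      ν {z | lam < ‖Top μ k (cm f m) z‖} ≤ ENNReal.ofReal (64 * A * B / lam ^ 3) *
        ∫⁻ x, ((min (f x) s : ℝ≥0) : ℝ≥0∞) ^ 3 ∂μ := by
  obtain ⟨s, hs1, hs2⟩ := exists_level hf hfin (ε := ENNReal.ofReal (lam / 4))
    (by rw [ENNReal.ofReal_pos]; positivity)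
  refine ⟨s, hs2, ?_⟩
  have hA := hk.pos
  set a : ℝ := lam / (4 * B) with ha
  have ha0 : 0 < a := by positivity
  set n : X → ℝ≥0 := fun x => min (f x) s with hn
  have hnm : Measurable n := hf.min measurable_const
  set sj : ℤ → ℝ≥0 := fun j => (a * (2 : ℝ) ^ j).toNNReal with hsj
  have hsjc : ∀ j, (sj j : ℝ) = a * (2 : ℝ) ^ j := fun j => Real.coe_toNNReal _ (by positivity)
  set h : ℤ → X → ℝ≥0 := fun j x => n x - sj j with hh
  have hhm : ∀ j, Measurable (h j) := fun j => hnm.sub measurable_const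
  have hle : ∀ g : X → ℝ≥0, (∀ x, g x ≤ f x) → ∫⁻ x, g x ∂μ ≠ ∞ := fun g hg =>
    ne_top_of_le_ne_top hfin (lintegral_mono fun x => ENNReal.coe_le_coe.2 (hg x))
  have hhf : ∀ j, ∫⁻ x, h j x ∂μ ≠ ∞ := fun j =>
    hle _ fun x => tsub_le_self.trans (min_le_left _ _)
  set U : ℤ → Set Z := fun j => {z | ρ z < (2 : ℝ) ^ (j + 1)} with hU
  set D : ℤ → Set Z := fun j => {z | ENNReal.ofReal (lam / 2) ≤ ‖Top μ k (cm (h j) m) z‖ₑ} with hD
  -- pointwise
  have hsub : {z : Z | lam < ‖Top μ k (cm f m) z‖} ⊆ {z | ρ z = 0} ∪ ⋃ j, (U j ∩ D j) := by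
    intro z hz
    by_cases h0 : ρ z = 0
    · exact Or.inl h0
    have h0' : 0 < ρ z := lt_of_le_of_ne (hk.r0 z) (Ne.symm h0)
    right
    obtain ⟨j, hj1, hj2⟩ := exists_mem_Ico_zpow (y := (2 : ℝ)) (x := ρ z) h0' (by norm_num)
    refine mem_iUnion.2 ⟨j, hj2, ?_⟩
    have e1 : Top μ k (cm f m) z = Top μ k (cm n m) z + Top μ k (cm (fun x => f x - s) m) z := by
      refine T_split hk hnm (hf.sub measurable_const) hm hm1 (hle _ fun x => min_le_left _ _)
        (hle _ fun x => tsub_le_self) (fun x => ?_) z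
      simp only [hn]
      rw [add_comm]
      exact (tsub_add_min).symm
    have e2 : Top μ k (cm n m) z = Top μ k (cm (fun x => min (n x) (sj j)) m) z +
        Top μ k (cm (h j) m) z := by
      refine T_split hk (hnm.min measurable_const) (hhm j) hm hm1
        (hle _ fun x => (min_le_left _ _).trans (min_le_left _ _)) (hhf j) (fun x => ?_) z
      simp only [hh]
      rw [add_comm]
      exact (tsub_add_min).symm
    have b1 : ‖Top μ k (cm (fun x => f x - s) m) z‖ ≤ lam / 4 := by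
      have := (T_enorm hk (fun x => f x - s) hm1 z).trans hs1
      rw [← ofReal_norm] at this
      exact (ENNReal.ofReal_le_ofReal_iff (by positivity)).1 this
    have b2 : ‖Top μ k (cm (fun x => min (n x) (sj j)) m) z‖ ≤ lam / 4 := by
      have e3 : (fun x => min (n x) (sj j)) = fun x => min (f x) (min s (sj j)) := by
        ext x
        simp only [hn, min_assoc]
      rw [e3]
      refine (hdec _ z h0').trans ?_
      have h1 : ((min s (sj j) : ℝ≥0) : ℝ) ≤ a * (2 : ℝ) ^ j := by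
        rw [← hsjc]; exact_mod_cast min_le_right _ _
      rw [div_le_iff₀ h0']
      calc B * ((min s (sj j) : ℝ≥0) : ℝ) ≤ B * (a * (2 : ℝ) ^ j) := by gcongr
        _ = lam / 4 * (2 : ℝ) ^ j := by rw [ha]; field_simp
        _ ≤ lam / 4 * ρ z := by gcongr
    have hz' : lam < ‖Top μ k (cm f m) z‖ := hz
    rw [e1, e2] at hz'
    have h5 := norm_add_le (Top μ k (cm (fun x => min (n x) (sj j)) m) z + Top μ k (cm (h j) m) z)
      (Top μ k (cm (fun x => f x - s) m) z)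
    have h6 := norm_add_le (Top μ k (cm (fun x => min (n x) (sj j)) m) z) (Top μ k (cm (h j) m) z)
    show ENNReal.ofReal (lam / 2) ≤ ‖Top μ k (cm (h j) m) z‖ₑ
    rw [← ofReal_norm]
    apply ENNReal.ofReal_le_ofReal
    linarith
  -- one shell
  have hshell : ∀ j, ν (U j ∩ D j) ≤ ENNReal.ofReal (8 * A / lam ^ 2) *
      (ENNReal.ofReal ((2 : ℝ) ^ j) * ∫⁻ x, ((h j x : ℝ≥0) : ℝ≥0∞) ^ 2 ∂μ) := by
    intro j
    have h1 := hk.ah (cm (h j) m) (cm_meas (hhm j) hm) ⟨s, fun x => (cm_norm _ hm1 x).trans (by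
      exact_mod_cast (tsub_le_self.trans (min_le_right _ _) : h j x ≤ s))⟩
      (cm_int0 (hhm j) hm hm1 (hhf j)) ((2 : ℝ) ^ (j + 1)) (by positivity)
    have hUm : MeasurableSet (U j) := measurableSet_lt hk.rm measurable_const
    have h2 : ENNReal.ofReal (lam / 2) ^ 2 * ν (U j ∩ D j) ≤
        ∫⁻ x in U j, ‖Top μ k (cm (h j) m) x‖ₑ ^ 2 ∂ν := by
      have h3 := mul_meas_ge_le_lintegral₀ (μ := ν.restrict (U j))
        (f := fun x => ‖Top μ k (cm (h j) m) x‖ₑ ^ 2)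
        ((Top_meas hk (cm_meas (hhm j) hm)).enorm.pow_const 2).aemeasurable
        (ENNReal.ofReal (lam / 2) ^ 2)
      rw [Measure.restrict_apply' hUm] at h3
      refine le_trans (mul_le_mul' le_rfl (measure_mono ?_)) h3
      intro x hx
      refine ⟨?_, hx.1⟩
      have h9 : ENNReal.ofReal (lam / 2) ≤ ‖Top μ k (cm (h j) m) x‖ₑ := hx.2
      show ENNReal.ofReal (lam / 2) ^ 2 ≤ ‖Top μ k (cm (h j) m) x‖ₑ ^ 2
      gcongr
    have hl2 : ENNReal.ofReal (lam / 2) ^ 2 = ENNReal.ofReal (lam ^ 2 / 4) := by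
      rw [← ENNReal.ofReal_pow (by positivity)]; congr 1; ring
    have h4 : ν (U j ∩ D j) ≤ ENNReal.ofReal (4 / lam ^ 2) *
        (ENNReal.ofReal (lam / 2) ^ 2 * ν (U j ∩ D j)) := by
      rw [hl2, ← mul_assoc, ← ENNReal.ofReal_mul (by positivity)]
      have : 4 / lam ^ 2 * (lam ^ 2 / 4) = 1 := by field_simp
      rw [this, ENNReal.ofReal_one, one_mul]
    refine h4.trans ?_
    calc ENNReal.ofReal (4 / lam ^ 2) * (ENNReal.ofReal (lam / 2) ^ 2 * ν (U j ∩ D j))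
        ≤ ENNReal.ofReal (4 / lam ^ 2) * (ENNReal.ofReal (A * (2 : ℝ) ^ (j + 1)) *
          ∫⁻ w, ‖cm (h j) m w‖ₑ ^ 2 ∂μ) := mul_le_mul' le_rfl (h2.trans h1)
      _ ≤ ENNReal.ofReal (4 / lam ^ 2) * (ENNReal.ofReal (A * (2 : ℝ) ^ (j + 1)) *
          ∫⁻ w, ((h j w : ℝ≥0) : ℝ≥0∞) ^ 2 ∂μ) := by
          refine mul_le_mul' le_rfl (mul_le_mul' le_rfl (lintegral_mono fun w => ?_))
          have := cm_enorm (h j) hm1 w
          gcongr
      _ = _ := by
          rw [← mul_assoc, ← mul_assoc, ← ENNReal.ofReal_mul (by positivity),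
            ← ENNReal.ofReal_mul (by positivity)]
          congr 2
          rw [zpow_add_one₀ (by norm_num)]
          ring
  calc ν {z : Z | lam < ‖Top μ k (cm f m) z‖}
      ≤ ν ({z | ρ z = 0} ∪ ⋃ j, (U j ∩ D j)) := measure_mono hsub
    _ ≤ ν {z | ρ z = 0} + ∑' j, ν (U j ∩ D j) :=
        (measure_union_le _ _).trans (by gcongr; exact measure_iUnion_le _)
    _ = ∑' j, ν (U j ∩ D j) := by rw [hk.null, zero_add]
    _ ≤ ∑' j, ENNReal.ofReal (8 * A / lam ^ 2) *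
        (ENNReal.ofReal ((2 : ℝ) ^ j) * ∫⁻ x, ((h j x : ℝ≥0) : ℝ≥0∞) ^ 2 ∂μ) :=
        ENNReal.tsum_le_tsum hshell
    _ = ENNReal.ofReal (8 * A / lam ^ 2) * ∫⁻ x, ∑' j, ENNReal.ofReal ((2 : ℝ) ^ j) *
        ((h j x : ℝ≥0) : ℝ≥0∞) ^ 2 ∂μ := by
        rw [ENNReal.tsum_mul_left, lintegral_tsum]
        · congr 2
          ext j
          rw [lintegral_const_mul _ ((hhm j).coe_nnreal_ennreal.pow_const 2)]
        · intro j
          exact (((hhm j).coe_nnreal_ennreal.pow_const 2).const_mul _).aemeasurable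
    _ ≤ ENNReal.ofReal (8 * A / lam ^ 2) * ∫⁻ x, ENNReal.ofReal (2 / a) *
        ((n x : ℝ≥0) : ℝ≥0∞) ^ 3 ∂μ := by
        refine mul_le_mul' le_rfl (lintegral_mono fun x => ?_)
        calc ∑' j, ENNReal.ofReal ((2 : ℝ) ^ j) * ((h j x : ℝ≥0) : ℝ≥0∞) ^ 2
            ≤ ∑' j, (if a * (2 : ℝ) ^ j < n x then ENNReal.ofReal ((2 : ℝ) ^ j) else 0) *
              ((n x : ℝ≥0) : ℝ≥0∞) ^ 2 := by
              refine ENNReal.tsum_le_tsum fun j => ?_
              by_cases hc : a * (2 : ℝ) ^ j < n x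
              · rw [if_pos hc]
                gcongr
                exact tsub_le_self
              · rw [if_neg hc]
                have : h j x = 0 := by
                  simp only [hh]
                  apply tsub_eq_zero_of_le
                  rw [not_lt, ← hsjc] at hc
                  exact_mod_cast hc
                rw [this]
                simp
          _ = (∑' j : ℤ, (if a * (2 : ℝ) ^ j < n x then ENNReal.ofReal ((2 : ℝ) ^ j) else 0)) *
              ((n x : ℝ≥0) : ℝ≥0∞) ^ 2 := ENNReal.tsum_mul_right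
          _ ≤ ENNReal.ofReal (2 * (n x : ℝ) / a) * ((n x : ℝ≥0) : ℝ≥0∞) ^ 2 := by
              gcongr
              exact dyadic a (n x) ha0 (NNReal.coe_nonneg _)
          _ = _ := by
              rw [show 2 * (n x : ℝ) / a = 2 / a * (n x : ℝ) by ring,
                ENNReal.ofReal_mul (by positivity), ENNReal.ofReal_coe_nnreal]
              ring
    _ = _ := by
        rw [lintegral_const_mul _ (hnm.coe_nnreal_ennreal.pow_const 3), ← mul_assoc,
          ← ENNReal.ofReal_mul (by positivity)]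
        congr 2
        rw [ha]
        field_simp
        ring

end

end Pool.Agent.V1172.GP
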